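import Pool.Agent.Y760.ZF.Prod

/-!
# Polynomial relations of exponential height between multiple zeta values hold in all families
with the stuffle product, arbitrary indices (helper777, after helper760)
-/

set_option autoImplicit false

namespace Pool.Agent.Y777.AM.St

open Finset Pool.Agent.Y760.ZG Pool.Agent.Y760.ZF

/-- admissible indices -/
def Ad : List ℕ → Prop
  | [] => False
  | s :: l => 2 ≤ s ∧ ∀ t ∈ l, 1 ≤ t

lemma Cl_Ad {n : ℕ} {K : ℝ} {r : ℕ} {w : List ℕ} (hn : 2 ≤ n) (h : Cl n K r w) (hw : w ≠ []) :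
    Ad w := by
  cases w with
  | nil => exact absurd rfl hw
  | cons s l =>
    exact ⟨hn.trans (h.2.2 s (by simp)), fun t ht => (h.2.1 t (List.mem_cons_of_mem _ ht)).1⟩

lemma sti_ne {u v : List ℕ} (hu : u ≠ []) : ∀ w ∈ sti u v, w ≠ [] := by
  intro w hw
  cases u with
  | nil => exact absurd rfl hu
  | cons i k =>
    cases v with
    | nil =>
      rw [sti, List.mem_singleton] at hw
      rw [hw]
      simp
    | cons j l =>
      rw [sti, List.mem_append, List.mem_append, List.mem_map, List.mem_map, List.mem_map] at hw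
      rcases hw with (⟨w', _, rfl⟩ | ⟨w', _, rfl⟩) | ⟨w', _, rfl⟩ <;> simp

variable {A : Type} [CommRing A]

/-- the extension to the empty index -/
noncomputable def ex (Z : List ℕ → A) (u : List ℕ) : A := by
  classical
  exact if u = [] then 1 else Z u

lemma ex_nil (Z : List ℕ → A) : ex Z [] = 1 := by
  unfold ex
  rw [if_pos rfl]

lemma ex_ne (Z : List ℕ → A) {u : List ℕ} (hu : u ≠ []) : ex Z u = Z u := by
  unfold ex
  rw [if_neg hu]

lemma ex_mul {Z : List ℕ → A}
    (hZ : ∀ u v, Ad u → Ad v → Z u * Z v = ((sti u v).map Z).sum) {u v : List ℕ}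
    (hu : u ≠ [] → Ad u) (hv : v ≠ [] → Ad v) :
    ex Z u * ex Z v = ((sti u v).map (ex Z)).sum := by
  by_cases hun : u = []
  · rw [hun, ex_nil, one_mul, sti]
    simp
  · by_cases hvn : v = []
    · rw [hvn, ex_nil, mul_one]
      cases u with
      | nil => exact absurd rfl hun
      | cons x u =>
        rw [sti]
        simp
    · rw [ex_ne Z hun, ex_ne Z hvn, hZ u v (hu hun) (hv hvn)]
      congr 1
      exact List.map_congr_left fun t ht => (ex_ne Z (sti_ne hun t ht)).symm

lemma prod_ex {Z : List ℕ → A}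
    (hZ : ∀ u v, Ad u → Ad v → Z u * Z v = ((sti u v).map Z).sum) {n : ℕ} (hn : 2 ≤ n) {K : ℝ}
    (hK : 0 ≤ K) {r : ℕ} (M : List (List ℕ)) (hM : ∀ u ∈ M, Cl n K r u) :
    (M.map (ex Z)).prod = ((stil M).map (ex Z)).sum := by
  induction M with
  | nil =>
    rw [stil]
    simp [ex_nil]
  | cons u M ih =>
    have hM' : ∀ u ∈ M, Cl n K r u := fun u hu => hM u (List.mem_cons_of_mem _ hu)
    have hu := hM u List.mem_cons_self
    rw [List.map_cons, List.prod_cons, ih hM', stil]
    have h3 : ∀ v ∈ stil M, Cl n (M.length * K) (M.length * r) v := stil_Cl hK M hM'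
    clear ih
    revert h3
    generalize stil M = T
    intro h3
    induction T with
    | nil => simp
    | cons v T ih2 =>
      have h5 := h3 v List.mem_cons_self
      rw [List.map_cons, List.sum_cons, mul_add, List.flatMap_cons, List.map_append,
        List.sum_append, ih2 fun v' hv' => h3 v' (List.mem_cons_of_mem _ hv')]
      congr 1
      exact ex_mul hZ (fun h => Cl_Ad hn hu h) (fun h => Cl_Ad hn h5 h)

/-- the list of the indices of a monomial -/
def lst {k : ℕ} (w : Fin k → List ℕ) (m : Fin k → ℕ) : List (List ℕ) :=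
  (List.finRange k).flatMap fun i => List.replicate (m i) (w i)

lemma mem_lst {k : ℕ} {w : Fin k → List ℕ} {m : Fin k → ℕ} {u : List ℕ}
    (h : u ∈ lst w m) : ∃ i, u = w i := by
  rw [lst, List.mem_flatMap] at h
  obtain ⟨i, -, hi⟩ := h
  exact ⟨i, List.eq_of_mem_replicate hi⟩

lemma length_lst {k : ℕ} (w : Fin k → List ℕ) (m : Fin k → ℕ) :
    (lst w m).length = ∑ i, m i := by
  rw [lst, List.length_flatMap, Fin.sum_univ_def]
  simp

lemma prod_lst {k : ℕ} (w : Fin k → List ℕ) (m : Fin k → ℕ) (F : List ℕ → A) :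
    ((lst w m).map F).prod = ∏ i, F (w i) ^ m i := by
  rw [lst, List.map_flatMap]
  have h1 : ∀ L : List (Fin k), (L.flatMap fun i => (List.replicate (m i) (w i)).map F).prod =
      (L.map fun i => F (w i) ^ m i).prod := by
    intro L
    induction L with
    | nil => simp
    | cons a L ih =>
      rw [List.flatMap_cons, List.prod_append, ih, List.map_cons, List.prod_cons,
        List.map_replicate, List.prod_replicate]
  rw [h1, Fin.prod_univ_def]

/-- all monomials -/
noncomputable def Om (k D : ℕ) : Finset (Fin k →₀ ℕ) :=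
  (Finset.univ : Finset (Fin k → Fin (D + 1))).image
    fun g => Finsupp.equivFunOnFinite.symm fun i => (g i : ℕ)

lemma mem_Om {k D : ℕ} {m : Fin k →₀ ℕ} (h : ∀ i, m i ≤ D) : m ∈ Om k D := by
  rw [Om, mem_image]
  refine ⟨fun i => ⟨m i, by have := h i; omega⟩, mem_univ _, ?_⟩
  ext i
  simp

lemma Om_le {k D : ℕ} {m : Fin k →₀ ℕ} (h : m ∈ Om k D) (i : Fin k) : m i ≤ D := by
  rw [Om, mem_image] at h
  obtain ⟨g, -, rfl⟩ := h
  simp only [Finsupp.equivFunOnFinite_symm_apply_apply]
  have := (g i).2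
  omega

/-- all words -/
noncomputable def Wo {k : ℕ} (w : Fin k → List ℕ) (D : ℕ) : Finset (List ℕ) :=
  (Om k D).biUnion fun m => (stil (lst w m)).toFinset

/-- the coefficient of a word -/
noncomputable def Cf {k : ℕ} (w : Fin k → List ℕ) (D : ℕ) (f : MvPolynomial (Fin k) ℤ)
    (v : List ℕ) : ℤ :=
  ∑ m ∈ Om k D, f.coeff m * ((stil (lst w m)).countP (· = v) : ℤ)

lemma list_countA (L : List (List ℕ)) (F : List ℕ → A) (s : Finset (List ℕ))
    (hs : ∀ w ∈ L, w ∈ s) :
    (L.map F).sum = ∑ w ∈ s, ((L.countP (· = w) : ℕ) : A) * F w := by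
  induction L with
  | nil => simp
  | cons a L ih =>
    have hs' : ∀ w ∈ L, w ∈ s := fun w hw => hs w (List.mem_cons_of_mem _ hw)
    rw [List.map_cons, List.sum_cons, ih hs']
    have h1 : ∀ w ∈ s, (((a :: L).countP (· = w) : ℕ) : A) * F w =
        ((L.countP (· = w) : ℕ) : A) * F w + (if a = w then F w else 0) := by
      intro w _
      rw [List.countP_cons]
      by_cases h : a = w
      · simp only [h, decide_true, if_true]
        push_cast
        ring
      · simp only [h, decide_false, if_false, Bool.false_eq_true]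
        push_cast
        ring
    rw [sum_congr rfl h1, sum_add_distrib, sum_ite_eq, if_pos (hs a List.mem_cons_self), add_comm]

lemma aeval_sum {k : ℕ} (D : ℕ) (f : MvPolynomial (Fin k) ℤ)
    (hf : ∀ m ∈ f.support, ∀ i, m i ≤ D) (x : Fin k → A) :
    MvPolynomial.aeval x f = ∑ m ∈ Om k D, ((f.coeff m : ℤ) : A) * ∏ i, x i ^ m i := by
  rw [MvPolynomial.aeval_def, MvPolynomial.eval₂_eq']
  refine Finset.sum_subset (fun m hm => mem_Om (hf m hm)) fun m _ hm => ?_
  rw [MvPolynomial.notMem_support_iff.1 hm]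
  simp

lemma aeval_eq {k : ℕ} (w : Fin k → List ℕ) (D : ℕ)
    (f : MvPolynomial (Fin k) ℤ) (hf : ∀ m ∈ f.support, ∀ i, m i ≤ D) (F : List ℕ → A)
    (hF : ∀ m ∈ Om k D, ((lst w m).map F).prod = ((stil (lst w m)).map F).sum) :
    MvPolynomial.aeval (fun i => F (w i)) f = ∑ v ∈ Wo w D, (Cf w D f v : A) * F v := by
  rw [aeval_sum D f hf]
  have h1 : ∀ m ∈ Om k D, ((f.coeff m : ℤ) : A) * ∏ i, F (w i) ^ m i =
      ∑ v ∈ Wo w D, ((f.coeff m : ℤ) : A) * ((stil (lst w m)).countP (· = v) : A) * F v := by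
    intro m hm
    rw [← prod_lst, hF m hm, list_countA (stil (lst w m)) F (Wo w D)
      (fun v hv => mem_biUnion.2 ⟨m, hm, List.mem_toFinset.2 hv⟩), mul_sum]
    refine sum_congr rfl fun v _ => ?_
    rw [mul_assoc]
  rw [sum_congr rfl h1, sum_comm]
  refine sum_congr rfl fun v _ => ?_
  rw [← sum_mul, Cf]
  push_cast
  rfl

/-- **all stuffle families** -/
theorem main {l : ℕ} (β : Fin l → ℝ) (hβ : ∀ j, IsAlgebraic ℚ (β j))
    (hli : LinearIndependent ℚ β) (k r D : ℕ) (κ C : ℝ) :
    ∃ B : ℝ, 1 < B ∧ ∃ n0 : ℕ, ∀ n : ℕ, n0 ≤ n → ∀ w : Fin k → List ℕ,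
      (∀ i, w i ≠ [] ∧ Cl n (κ * n) r (w i)) → ∀ f : Fin l → MvPolynomial (Fin k) ℤ,
      (∀ j, ∀ m ∈ (f j).support, ∀ i, m i ≤ D) → (∀ j m, |(((f j).coeff m : ℤ) : ℝ)| ≤ C ^ n) →
      |∑ j, β j * MvPolynomial.aeval (fun i => mz (w i)) (f j)| ≤ (B ^ n)⁻¹ →
      ∀ j, MvPolynomial.aeval (fun i => mz (w i)) (f j) = 0 ∧
        ∀ (A : Type) [CommRing A] (Z : List ℕ → A),
          (∀ u v, Ad u → Ad v → Z u * Z v = ((sti u v).map Z).sum) →
          MvPolynomial.aeval (fun i => Z (w i)) (f j) = 0 := by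
  classical
  set S : ℕ := (Om k D).card with hS
  obtain ⟨B, hB, n0, hmain⟩ := mainM β hβ hli S r (k * D) κ ((S + 1) * |C|)
  refine ⟨B, hB, n0 + k * D * r + 2, fun n hn w hw f hf hC hv => ?_⟩
  have hlen : ∀ m ∈ Om k D, (lst w m).length ≤ k * D := by
    intro m hm
    rw [length_lst]
    calc ∑ i, m i ≤ ∑ _i : Fin k, D := sum_le_sum fun i _ => Om_le hm i
      _ = k * D := by rw [sum_const, Finset.card_univ, Fintype.card_fin, smul_eq_mul]
  have hcl : ∀ m : Fin k →₀ ℕ, ∀ u ∈ lst w m, Cl n (|κ| * n) r u := by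
    intro m u hu
    obtain ⟨i, rfl⟩ := mem_lst hu
    obtain ⟨-, h1, h2, h3⟩ := hw i
    refine ⟨h1, fun x hx => ⟨(h2 x hx).1, (h2 x hx).2.trans ?_⟩, h3⟩
    exact mul_le_mul_of_nonneg_right (le_abs_self κ) (Nat.cast_nonneg _)
  set lw : (Fin k →₀ ℕ) → List (List ℕ) := fun m => lst w m with hlw
  set T : Finset (List (List ℕ)) := (Om k D).image lw with hT
  set c : List (List ℕ) → Fin l → ℤ := fun M j =>
    ∑ m ∈ Om k D with lw m = M, (f j).coeff m with hc
  have h1 := hmain n (by omega) T card_image_le (by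
      intro M hM
      obtain ⟨m, hm, rfl⟩ := mem_image.1 hM
      refine ⟨hlen m hm, fun u hu => ?_⟩
      obtain ⟨i, rfl⟩ := mem_lst hu
      exact (hw i).2) c (by
      intro M _ j
      rw [hc]
      push_cast
      have hn1 : 1 ≤ n := by omega
      calc |∑ m ∈ Om k D with lw m = M, (((f j).coeff m : ℤ) : ℝ)| ≤
          ∑ m ∈ Om k D with lw m = M, |C| ^ n := by
            refine (abs_sum_le_sum_abs _ _).trans (sum_le_sum fun m _ => ?_)
            exact (hC j m).trans ((le_abs_self _).trans (abs_pow _ _).le)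
        _ = ((Om k D).filter fun m => lw m = M).card * |C| ^ n := by
            rw [sum_const, nsmul_eq_mul]
        _ ≤ (S + 1) * |C| ^ n := by
            refine mul_le_mul_of_nonneg_right ?_ (by positivity)
            have : (((Om k D).filter fun m => lw m = M).card : ℝ) ≤ S := by
              exact_mod_cast card_filter_le _ _
            linarith only [this]
        _ ≤ (S + 1) ^ n * |C| ^ n := by
            refine mul_le_mul_of_nonneg_right ?_ (by positivity)
            exact le_self_pow₀ (by have : (0 : ℝ) ≤ S := Nat.cast_nonneg _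
                                   linarith only [this]) (by omega)
        _ = ((S + 1) * |C|) ^ n := by rw [mul_pow])
  -- the value
  have hval : ∑ M ∈ T, (∑ j, β j * c M j) * (M.map mz).prod =
      ∑ j, β j * MvPolynomial.aeval (fun i => mz (w i)) (f j) := by
    have e1 : ∀ j, MvPolynomial.aeval (fun i => mz (w i)) (f j) =
        ∑ M ∈ T, (c M j : ℝ) * (M.map mz).prod := by
      intro j
      rw [aeval_sum D (f j) (hf j)]
      have e2 : ∀ m ∈ Om k D, (((f j).coeff m : ℤ) : ℝ) * ∏ i, mz (w i) ^ m i =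
          (((f j).coeff m : ℤ) : ℝ) * ((lw m).map mz).prod := fun m _ => by rw [hlw, prod_lst]
      rw [sum_congr rfl e2, ← sum_fiberwise_of_maps_to (s := Om k D) (t := T)
        (g := lw) (fun m hm => mem_image_of_mem _ hm)]
      refine sum_congr rfl fun M _ => ?_
      rw [hc]
      push_cast
      rw [sum_mul]
      refine sum_congr rfl fun m hm => ?_
      rw [(mem_filter.1 hm).2]
    have e3 : ∀ j, β j * MvPolynomial.aeval (fun i => mz (w i)) (f j) =
        ∑ M ∈ T, β j * ((c M j : ℝ) * (M.map mz).prod) := fun j => by rw [e1 j, mul_sum]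
    rw [sum_congr rfl fun j _ => e3 j, sum_comm]
    refine sum_congr rfl fun M _ => ?_
    rw [sum_mul]
    refine sum_congr rfl fun j _ => ?_
    ring
  rw [hval] at h1
  have h2 : ∀ v j, co T c v j = 0 := by
    rcases h1 with h1 | h1
    · exact h1.1
    · exact absurd hv (not_le.2 h1)
  have h3 : ∀ j v, Cf w D (f j) v = 0 := by
    intro j v
    rw [← h2 v j, Cf, co, ← sum_fiberwise_of_maps_to (s := Om k D) (t := T)
      (g := lw) (fun m hm => mem_image_of_mem _ hm)]
    refine sum_congr rfl fun M _ => ?_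
    rw [hc]
    simp only
    rw [sum_mul]
    refine sum_congr rfl fun m hm => ?_
    rw [← (mem_filter.1 hm).2]
  intro j
  refine ⟨?_, fun A _ Z hZ => ?_⟩
  · rw [aeval_eq w D (f j) (hf j) mz (fun m hm => mz_prod (K := |κ| * n) (by positivity) _
      (hcl m) (by
        have := Nat.mul_le_mul_right r (hlen m hm)
        omega))]
    refine sum_eq_zero fun v _ => ?_
    rw [h3, Int.cast_zero, zero_mul]
  · have h8 : (fun i => Z (w i)) = fun i => ex Z (w i) := by
      funext i
      rw [ex_ne Z (hw i).1]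
    rw [h8, aeval_eq w D (f j) (hf j) (ex Z) (fun m _ => prod_ex hZ (by omega : 2 ≤ n)
      (K := |κ| * n) (by positivity) _ (hcl m))]
    refine sum_eq_zero fun v _ => ?_
    rw [h3, Int.cast_zero, zero_mul]

end Pool.Agent.Y777.AM.St
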