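import Pool.Agent.Y777.AM.F
import Mathlib.Combinatorics.Enumerative.Composition

/-!
# Arbitrarily many multiple zeta values with many arguments at least two (helper777)
-/

set_option autoImplicit false

namespace Pool.Agent.Y777.AM

open Filter Topology Pool.Agent.Y760.ZG Pool.Agent.Y777.AL Pool.Agent.TH883.Zg

/-- the number of words of bounded weight -/
lemma card_words (H : Finset (List ℕ)) (M : ℕ) (hH : ∀ h ∈ H, (∀ m ∈ h, 1 ≤ m) ∧ h.sum ≤ M) :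
    H.card ≤ 2 ^ M := by
  classical
  have h1 : Fintype.card (Composition (M + 1)) = 2 ^ M := by
    rw [composition_card, Nat.add_sub_cancel]
  rw [← h1, ← Fintype.card_coe]
  let f : {h // h ∈ H} → Composition (M + 1) := fun h =>
    { blocks := h.1 ++ [M + 1 - h.1.sum]
      blocks_pos := by
        intro i hi
        rw [List.mem_append, List.mem_singleton] at hi
        rcases hi with hi | rfl
        · exact (hH h.1 h.2).1 i hi
        · have := (hH h.1 h.2).2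
          omega
      blocks_sum := by
        have := (hH h.1 h.2).2
        rw [List.sum_append, List.sum_singleton]
        omega }
  refine Fintype.card_le_of_injective f ?_
  intro h h' hh
  have h2 : (f h).blocks = (f h').blocks := by rw [hh]
  exact Subtype.ext (List.append_inj_left' h2 rfl)

/-- the words with many arguments at least two -/
def Hg (n : ℕ) (ε : ℝ) (Q : ℕ) (h : List ℕ) : Prop :=
  h ≠ [] ∧ (∀ m ∈ h, 1 ≤ m) ∧ (∀ k ∈ h.head?, 2 ≤ k) ∧ h.length ≤ Q * n ∧ ε * n ≤ ht h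

lemma ht_le (h : List ℕ) : ht h ≤ h.length := List.countP_le_length

lemma mz_Hg {n : ℕ} {ε : ℝ} {Q : ℕ} {h : List ℕ} (hh : Hg n ε Q h) :
    mz h ≤ (4 ^ Q) ^ n * Z32 / ((⌈ε * n⌉₊ - 1).factorial : ℝ) := by
  obtain ⟨h0, h1, h2, h3, h4⟩ := hh
  have hZ : 0 ≤ Z32 := tsum_nonneg fun k => by positivity
  have h5 : ⌈ε * n⌉₊ ≤ ht h := Nat.ceil_le.2 h4
  have h6 : (⌈ε * n⌉₊ - 1).factorial ≤ (ht h - 1).factorial :=
    Nat.factorial_le (Nat.sub_le_sub_right h5 1)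
  have h7 : ht h - 1 ≤ Q * n := (Nat.sub_le _ _).trans ((ht_le h).trans h3)
  have h8 : (0 : ℝ) < ((⌈ε * n⌉₊ - 1).factorial : ℝ) := by exact_mod_cast Nat.factorial_pos _
  refine (mz_ht h1 h0 h2).trans ?_
  calc 2 ^ h.length * Z32 * (2 ^ (ht h - 1) / ((ht h - 1).factorial : ℝ)) ≤
      2 ^ (Q * n) * Z32 * (2 ^ (Q * n) / ((⌈ε * n⌉₊ - 1).factorial : ℝ)) := by
        have e1 : (2 : ℝ) ^ h.length ≤ 2 ^ (Q * n) := pow_le_pow_right₀ one_le_two h3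
        have e2 : (2 : ℝ) ^ (ht h - 1) ≤ 2 ^ (Q * n) := pow_le_pow_right₀ one_le_two h7
        have e3 : ((⌈ε * n⌉₊ - 1).factorial : ℝ) ≤ ((ht h - 1).factorial : ℝ) := by
          exact_mod_cast h6
        gcongr
    _ = (4 ^ Q) ^ n * Z32 / ((⌈ε * n⌉₊ - 1).factorial : ℝ) := by
        have e4 : ((4 : ℝ) ^ Q) ^ n = 2 ^ (Q * n) * 2 ^ (Q * n) := by
          rw [← pow_mul, ← mul_pow]
          norm_num
        rw [e4]
        ring

/-- **the sum of the small values** -/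
theorem small (ε C B : ℝ) (Q : ℕ) (hε : 0 < ε) (hC : 1 ≤ C) (hB : 1 < B) :
    ∃ n0 : ℕ, ∀ n : ℕ, n0 ≤ n → ∀ H : Finset (List ℕ), (H.card : ℝ) ≤ C ^ n →
      (∀ h ∈ H, Hg n ε Q h) → ∀ b : List ℕ → ℝ, (∀ h ∈ H, |b h| ≤ C ^ n) →
      |∑ h ∈ H, b h * mz h| ≤ (B ^ n)⁻¹ / 2 := by
  set R : ℕ := ⌈1 / ε⌉₊ with hR
  set A : ℝ := C * C * 4 ^ Q * B with hA
  have hA1 : 1 ≤ A := by
    have h1 : 1 ≤ C * C := one_le_mul_of_one_le_of_one_le hC hC
    have h2 : (1 : ℝ) ≤ 4 ^ Q := one_le_pow₀ (by norm_num)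
    exact one_le_mul_of_one_le_of_one_le (one_le_mul_of_one_le_of_one_le h1 h2) hB.le
  have hZ : 0 ≤ Z32 := tsum_nonneg fun k => by positivity
  have ht : Tendsto (fun d : ℕ => (2 * Z32 * A ^ R) * ((A ^ R) ^ d / (d.factorial : ℝ))) atTop
      (𝓝 0) := by
    have := (FloorSemiring.tendsto_pow_div_factorial_atTop (A ^ R)).const_mul (2 * Z32 * A ^ R)
    rwa [mul_zero] at this
  obtain ⟨d0, hd0⟩ := (ht.eventually (gt_mem_nhds (zero_lt_one))).exists_forall_of_atTop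
  refine ⟨⌈((d0 : ℝ) + 1) / ε⌉₊, fun n hn H hHc hH b hb => ?_⟩
  set d : ℕ := ⌈ε * n⌉₊ - 1 with hd
  have h1 : ((d0 : ℝ) + 1) / ε ≤ n := (Nat.le_ceil _).trans (by exact_mod_cast hn)
  rw [div_le_iff₀ hε] at h1
  have h2 : d0 + 1 ≤ ⌈ε * n⌉₊ := by
    have h3 : ((d0 + 1 : ℕ) : ℝ) ≤ ε * n := by
      push_cast
      linarith only [h1]
    have h4 := h3.trans (Nat.le_ceil (ε * n))
    exact_mod_cast h4
  have h3 : d0 ≤ d := by omega
  have h4 : n ≤ R * (d + 1) := by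
    have h5 : ε * n ≤ ((d + 1 : ℕ) : ℝ) := by
      rw [hd, show ⌈ε * n⌉₊ - 1 + 1 = ⌈ε * n⌉₊ by omega]
      exact Nat.le_ceil _
    have h6 : (n : ℝ) ≤ (R : ℝ) * ((d + 1 : ℕ) : ℝ) := by
      calc (n : ℝ) = 1 / ε * (ε * n) := by field_simp
        _ ≤ R * ((d + 1 : ℕ) : ℝ) := mul_le_mul (Nat.le_ceil _) h5 (by positivity)
            (Nat.cast_nonneg _)
    exact_mod_cast h6
  have h5 := hd0 d h3
  have hdf : (0 : ℝ) < (d.factorial : ℝ) := by exact_mod_cast Nat.factorial_pos _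
  have h6 : 2 * Z32 * A ^ n ≤ d.factorial := by
    have h7 : A ^ n ≤ (A ^ R) ^ (d + 1) := by
      rw [← pow_mul]
      exact pow_le_pow_right₀ hA1 h4
    have h8 : 2 * Z32 * A ^ R * ((A ^ R) ^ d / (d.factorial : ℝ)) =
        2 * Z32 * (A ^ R) ^ (d + 1) / d.factorial := by
      rw [pow_succ]
      ring
    rw [h8, div_lt_one hdf] at h5
    calc 2 * Z32 * A ^ n ≤ 2 * Z32 * (A ^ R) ^ (d + 1) := by gcongr
      _ ≤ d.factorial := h5.le
  have hBn : (0 : ℝ) < B ^ n := by positivity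
  have hCn : (0 : ℝ) < C ^ n := by positivity
  have h7 : ∀ h ∈ H, |b h * mz h| ≤ C ^ n * ((4 ^ Q) ^ n * Z32 / (d.factorial : ℝ)) := by
    intro h hh
    rw [abs_mul, abs_of_nonneg (mz_nonneg h)]
    exact mul_le_mul (hb h hh) (mz_Hg (hH h hh)) (mz_nonneg _) hCn.le
  calc |∑ h ∈ H, b h * mz h| ≤ ∑ h ∈ H, |b h * mz h| := Finset.abs_sum_le_sum_abs _ _
    _ ≤ ∑ h ∈ H, C ^ n * ((4 ^ Q) ^ n * Z32 / (d.factorial : ℝ)) := Finset.sum_le_sum h7
    _ = H.card * (C ^ n * ((4 ^ Q) ^ n * Z32 / (d.factorial : ℝ))) := by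
        rw [Finset.sum_const, nsmul_eq_mul]
    _ ≤ C ^ n * (C ^ n * ((4 ^ Q) ^ n * Z32 / (d.factorial : ℝ))) :=
        mul_le_mul_of_nonneg_right hHc (by positivity)
    _ = (2 * Z32 * A ^ n) / (2 * B ^ n * d.factorial) := by
        rw [hA, mul_pow, mul_pow, mul_pow]
        field_simp
    _ ≤ d.factorial / (2 * B ^ n * d.factorial) :=
        div_le_div_of_nonneg_right h6 (by positivity)
    _ = (B ^ n)⁻¹ / 2 := by field_simp

/-- **the theorem with arbitrarily many small values** -/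
theorem F1H {l : ℕ} (β : Fin l → ℝ) (hβ : ∀ j, IsAlgebraic ℚ (β j))
    (hli : LinearIndependent ℚ β) (N K Q : ℕ) (κ C ε : ℝ) (hε : 0 < ε) :
    ∃ B : ℝ, 1 < B ∧ ∃ n0 : ℕ, ∀ n : ℕ, n0 ≤ n → ∀ W : Finset (List ℕ), W.card ≤ N →
      (∀ w ∈ W, Wf n κ w) → ∀ a : List ℕ → Fin l → ℤ,
      (∃ w ∈ W, w ≠ [] ∧ Fi n K w ∧ ∃ j, a w j ≠ 0) → (∀ w ∈ W, ∀ j, |(a w j : ℝ)| ≤ C ^ n) →
      ∀ H : Finset (List ℕ), (∀ h ∈ H, h ≠ [] ∧ (∀ m ∈ h, 1 ≤ m) ∧ (∀ k ∈ h.head?, 2 ≤ k) ∧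
        h.sum ≤ Q * n ∧ ε * n ≤ ht h) → ∀ b : List ℕ → ℝ, (∀ h ∈ H, |b h| ≤ C ^ n) →
      (B ^ n)⁻¹ < |∑ w ∈ W, ∑ j, (β j * a w j) * mz w - ∑ h ∈ H, b h * mz h| := by
  obtain ⟨B, hB, n0, h1⟩ := F1 β hβ hli N K κ C
  set C' : ℝ := max (max |C| 1) (2 ^ Q) with hC'
  have hC1 : 1 ≤ C' := (le_max_right _ _).trans (le_max_left _ _)
  obtain ⟨n1, h2⟩ := small ε C' B Q hε hC1 hB
  refine ⟨2 * B, by linarith only [hB], max (max n0 n1) 1, ?_⟩
  intro n hn W hWN hW a ha haC H hH b hb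
  have hn0 : n0 ≤ n := (le_max_left _ _).trans ((le_max_left _ _).trans hn)
  have hn1 : n1 ≤ n := (le_max_right _ _).trans ((le_max_left _ _).trans hn)
  have hn2 : 1 ≤ n := (le_max_right _ _).trans hn
  have h3 := h1 n hn0 W hWN hW a ha haC
  have h4 := h2 n hn1 H (by
      have h5 := card_words H (Q * n) (fun h hh => ⟨(hH h hh).2.1, (hH h hh).2.2.2.1⟩)
      calc (H.card : ℝ) ≤ ((2 ^ (Q * n) : ℕ) : ℝ) := by exact_mod_cast h5
        _ = (2 ^ Q) ^ n := by rw [← pow_mul]; push_cast; rfl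
        _ ≤ C' ^ n := pow_le_pow_left₀ (by positivity) (le_max_right _ _) _) (by
      intro h hh
      obtain ⟨e1, e2, e3, e4, e5⟩ := hH h hh
      refine ⟨e1, e2, e3, ?_, e5⟩
      refine le_trans ?_ e4
      have h6 := List.length_le_sum_of_one_le h e2
      exact h6) b (by
      intro h hh
      refine (hb h hh).trans ((le_abs_self _).trans ?_)
      rw [abs_pow]
      exact pow_le_pow_left₀ (abs_nonneg _) ((le_max_left _ _).trans (le_max_left _ _)) _)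
  have h7 : ((2 * B) ^ n)⁻¹ ≤ (B ^ n)⁻¹ / 2 := by
    rw [mul_pow, mul_inv]
    have h8 : (2 : ℝ) ≤ 2 ^ n := by
      calc (2 : ℝ) = 2 ^ 1 := (pow_one _).symm
        _ ≤ 2 ^ n := pow_le_pow_right₀ one_le_two (by omega)
    have h9 : ((2 : ℝ) ^ n)⁻¹ ≤ 1 / 2 := by
      rw [one_div]
      exact inv_anti₀ two_pos h8
    have hBn : 0 < B ^ n := by positivity
    calc ((2 : ℝ) ^ n)⁻¹ * (B ^ n)⁻¹ ≤ 1 / 2 * (B ^ n)⁻¹ :=
          mul_le_mul_of_nonneg_right h9 (by positivity)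
      _ = _ := by ring
  have h10 := abs_sub_abs_le_abs_sub (∑ w ∈ W, ∑ j, (β j * a w j) * mz w) (∑ h ∈ H, b h * mz h)
  linarith only [h3, h4, h7, h10]

end Pool.Agent.Y777.AM
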