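import Pool.Agent.Y777.AM.Z

/-!
# Multiple zeta values at words in two and three (helper777)
-/

set_option autoImplicit false

namespace Pool.Agent.Y777.AM

open Filter Topology Pool.Agent.Y760.ZG Pool.Agent.Y777.AL Pool.Agent.TH883.Zg

/-- the words in two and three -/
def Hof (w : List ℕ) : Prop := ∀ s ∈ w, s = 2 ∨ s = 3

/-- the number of threes -/
def th (w : List ℕ) : ℕ := w.countP (fun s => decide (s = 3))

lemma th_two (u : List ℕ) : th (2 :: u) = th u := by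
  unfold th
  rw [List.countP_cons_of_neg (by simp)]

lemma th_three (u : List ℕ) : th (3 :: u) = th u + 1 := by
  unfold th
  rw [List.countP_cons_of_pos (by simp)]

lemma th_le (w : List ℕ) : th w ≤ w.length := List.countP_le_length

lemma Hof_sum {w : List ℕ} (hw : Hof w) : w.sum = 2 * w.length + th w := by
  induction w with
  | nil => rfl
  | cons a u ih =>
    have h1 := ih fun s hs => hw s (List.mem_cons_of_mem _ hs)
    rcases hw a List.mem_cons_self with rfl | rfl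
    · rw [List.sum_cons, List.length_cons, th_two]
      omega
    · rw [List.sum_cons, List.length_cons, th_three]
      omega

/-- the exponents -/
noncomputable def fη (η : ℝ) (j : ℕ) : ℝ := ((j : ℝ) ^ (1 + η))⁻¹

lemma fη_nonneg (η : ℝ) (j : ℕ) : 0 ≤ fη η j := by
  unfold fη
  positivity

/-- the factor -/
noncomputable def Qf (η : ℝ) (w : List ℕ) : ℝ :=
  ((w.length.factorial : ℝ) ^ (1 - η))⁻¹ * ((th w).factorial : ℝ)⁻¹

lemma Qf_nonneg (η : ℝ) (w : List ℕ) : 0 ≤ Qf η w := by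
  unfold Qf
  positivity

lemma Qf_step {η : ℝ} (hη : η ≤ 1) {a : ℕ} {u : List ℕ} (ha : a = 2 ∨ a = 3) {j : ℕ}
    (hj : u.length + 1 ≤ j) : Qf η u * ((j : ℝ) ^ a)⁻¹ ≤ Qf η (a :: u) * fη η j := by
  set d : ℕ := u.length + 1 with hd
  have hd1 : (1 : ℝ) ≤ d := by exact_mod_cast Nat.le_add_left 1 _
  have hdj : (d : ℝ) ≤ j := by exact_mod_cast hj
  have hj0 : (0 : ℝ) < j := by linarith only [hd1, hdj]
  have hd0 : (0 : ℝ) < d := by linarith only [hd1]
  have e1 : ((a :: u).length.factorial : ℝ) = d * (u.length.factorial : ℝ) := by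
    rw [List.length_cons, Nat.factorial_succ, Nat.cast_mul]
  have hu0 : (0 : ℝ) < (u.length.factorial : ℝ) := by exact_mod_cast Nat.factorial_pos _
  have e2 : (((a :: u).length.factorial : ℝ) ^ (1 - η))⁻¹ =
      ((d : ℝ) ^ (1 - η))⁻¹ * ((u.length.factorial : ℝ) ^ (1 - η))⁻¹ := by
    rw [e1, Real.mul_rpow hd0.le hu0.le, mul_inv]
  have e3 : ((j : ℝ) ^ (1 - η))⁻¹ ≤ ((d : ℝ) ^ (1 - η))⁻¹ := by
    refine inv_anti₀ (Real.rpow_pos_of_pos hd0 _) ?_
    exact Real.rpow_le_rpow hd0.le hdj (by linarith only [hη])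
  have e4 : ((j : ℝ) ^ 2)⁻¹ = ((j : ℝ) ^ (1 - η))⁻¹ * fη η j := by
    unfold fη
    rw [← mul_inv, ← Real.rpow_add hj0, ← Real.rpow_natCast]
    congr 2
    push_cast
    ring
  have hA : 0 ≤ ((u.length.factorial : ℝ) ^ (1 - η))⁻¹ := by positivity
  have hT : (0 : ℝ) ≤ ((th u).factorial : ℝ)⁻¹ := by positivity
  have key : ((u.length.factorial : ℝ) ^ (1 - η))⁻¹ * ((j : ℝ) ^ 2)⁻¹ ≤
      (((a :: u).length.factorial : ℝ) ^ (1 - η))⁻¹ * fη η j := by
    rw [e2, e4]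
    have h1 : ((u.length.factorial : ℝ) ^ (1 - η))⁻¹ * ((j : ℝ) ^ (1 - η))⁻¹ ≤
        ((d : ℝ) ^ (1 - η))⁻¹ * ((u.length.factorial : ℝ) ^ (1 - η))⁻¹ := by
      rw [mul_comm]
      exact mul_le_mul_of_nonneg_right e3 hA
    rw [← mul_assoc]
    exact mul_le_mul_of_nonneg_right h1 (fη_nonneg _ _)
  unfold Qf
  rcases ha with rfl | rfl
  · rw [th_two]
    calc _ = (((u.length.factorial : ℝ) ^ (1 - η))⁻¹ * ((j : ℝ) ^ 2)⁻¹) *
          ((th u).factorial : ℝ)⁻¹ := by ring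
      _ ≤ ((((2 :: u).length.factorial : ℝ) ^ (1 - η))⁻¹ * fη η j) *
          ((th u).factorial : ℝ)⁻¹ := mul_le_mul_of_nonneg_right key hT
      _ = _ := by ring
  · rw [th_three]
    have e5 : ((th u + 1).factorial : ℝ) = (th u + 1) * ((th u).factorial : ℝ) := by
      rw [Nat.factorial_succ]
      push_cast
      ring
    have e6 : ((j : ℝ))⁻¹ ≤ ((th u : ℝ) + 1)⁻¹ := by
      refine inv_anti₀ (by positivity) ?_
      have h1 := th_le u
      have h2 : th u + 1 ≤ j := by omega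
      exact_mod_cast h2
    have e7 : ((j : ℝ) ^ 3)⁻¹ = ((j : ℝ) ^ 2)⁻¹ * ((j : ℝ))⁻¹ := by
      rw [← mul_inv, ← pow_succ]
    rw [e5, mul_inv, e7]
    calc _ = (((u.length.factorial : ℝ) ^ (1 - η))⁻¹ * ((j : ℝ) ^ 2)⁻¹) *
          (((j : ℝ))⁻¹ * ((th u).factorial : ℝ)⁻¹) := by ring
      _ ≤ ((((3 :: u).length.factorial : ℝ) ^ (1 - η))⁻¹ * fη η j) *
          (((th u : ℝ) + 1)⁻¹ * ((th u).factorial : ℝ)⁻¹) := by
            refine mul_le_mul key (mul_le_mul_of_nonneg_right e6 hT) (by positivity) ?_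
            exact mul_nonneg (by positivity) (fη_nonneg _ _)
      _ = _ := by ring

lemma hr_Hof {η : ℝ} (hη : η ≤ 1) (w : List ℕ) (hw : Hof w) : ∀ m : ℕ, 1 ≤ m →
    hr w m ≤ Qf η w * (Sf (fη η) m ^ w.length / (w.length.factorial : ℝ)) := by
  induction w with
  | nil =>
    intro m _
    have h0 : th [] = 0 := rfl
    rw [hr_nil, Qf, List.length_nil, h0]
    simp
  | cons a u ih =>
    intro m hm
    have hu : Hof u := fun s hs => hw s (List.mem_cons_of_mem _ hs)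
    have ih' := ih hu
    rw [hr_cons, List.length_cons]
    set D : ℕ := u.length with hD
    have hDf : (0 : ℝ) < (D.factorial : ℝ) := by exact_mod_cast Nat.factorial_pos _
    have h1 : ∀ j ∈ Finset.Ico 1 m, hr u j / (j : ℝ) ^ a ≤
        Qf η (a :: u) / (D.factorial : ℝ) * (Sf (fη η) j ^ D * fη η j) := by
      intro j hj
      obtain ⟨hj1, hj2⟩ := Finset.mem_Ico.1 hj
      have hS : 0 ≤ Sf (fη η) j ^ D := pow_nonneg (Sf_nonneg (fη_nonneg η) _) _
      have hnn : 0 ≤ Qf η (a :: u) / (D.factorial : ℝ) * (Sf (fη η) j ^ D * fη η j) :=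
        mul_nonneg (div_nonneg (Qf_nonneg _ _) hDf.le) (mul_nonneg hS (fη_nonneg _ _))
      by_cases hjD : D + 1 ≤ j
      · have h2 := Qf_step hη (hw a List.mem_cons_self) (u := u) hjD
        calc hr u j / (j : ℝ) ^ a = hr u j * ((j : ℝ) ^ a)⁻¹ := div_eq_mul_inv _ _
          _ ≤ (Qf η u * (Sf (fη η) j ^ D / (D.factorial : ℝ))) * ((j : ℝ) ^ a)⁻¹ :=
              mul_le_mul_of_nonneg_right (ih' j hj1) (by positivity)
          _ = (Qf η u * ((j : ℝ) ^ a)⁻¹) * (Sf (fη η) j ^ D / (D.factorial : ℝ)) := by ring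
          _ ≤ (Qf η (a :: u) * fη η j) * (Sf (fη η) j ^ D / (D.factorial : ℝ)) :=
              mul_le_mul_of_nonneg_right h2 (div_nonneg hS hDf.le)
          _ = _ := by ring
      · have hu0 : u ≠ [] := by
          rintro rfl
          rw [List.length_nil] at hD
          omega
        rw [hr_zero u hu0 j (by omega), zero_div]
        exact hnn
    refine (Finset.sum_le_sum h1).trans ?_
    rw [← Finset.mul_sum]
    have h3 := Sf_pow (fη_nonneg η) D m hm
    have h4 : ((D + 1).factorial : ℝ) = (D + 1) * D.factorial := by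
      rw [Nat.factorial_succ]
      push_cast
      ring
    rw [h4]
    calc _ ≤ Qf η (a :: u) / (D.factorial : ℝ) * (Sf (fη η) m ^ (D + 1) / (D + 1)) :=
          mul_le_mul_of_nonneg_left h3 (div_nonneg (Qf_nonneg _ _) hDf.le)
      _ = _ := by
          field_simp

/-- a constant -/
noncomputable def Zη (η : ℝ) : ℝ := 1 + ∑' j : ℕ, fη η j

lemma Sf_le_Z {η : ℝ} (hη : 0 < η) (m : ℕ) : Sf (fη η) m ≤ Zη η := by
  have hs : Summable (fη η) := by
    have := Real.summable_nat_rpow_inv.2 (by linarith only [hη] : 1 < 1 + η)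
    exact this
  have h1 : Sf (fη η) m ≤ ∑' j : ℕ, fη η j := hs.sum_le_tsum _ fun j _ => fη_nonneg η j
  unfold Zη
  linarith only [h1]

lemma Zη_one {η : ℝ} : 1 ≤ Zη η := by
  unfold Zη
  have : 0 ≤ ∑' j : ℕ, fη η j := tsum_nonneg fun j => fη_nonneg η j
  linarith only [this]

/-- the size of the values -/
lemma mz_Hof {η : ℝ} (hη0 : 0 < η) (hη : η ≤ 1) {w : List ℕ} (hw : Hof w) (hw0 : w ≠ []) :
    mz w ≤ Qf η w * (Zη η ^ w.length / (w.length.factorial : ℝ)) := by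
  cases w with
  | nil => exact absurd rfl hw0
  | cons a u =>
    rw [mz]
    refine Real.tsum_le_of_sum_range_le (fun k => div_nonneg (hr_nonneg _ _) (by positivity))
      fun K => ?_
    have h1 : ∑ i ∈ Finset.range K, hr u (i + 1) / ((i + 1 : ℕ) : ℝ) ^ a = hr (a :: u) (K + 1) := by
      rw [hr_cons, Finset.sum_Ico_eq_sum_range]
      simp only [Nat.add_sub_cancel, add_comm 1]
    rw [h1]
    refine (hr_Hof hη _ hw (K + 1) (by omega)).trans ?_
    refine mul_le_mul_of_nonneg_left ?_ (Qf_nonneg _ _)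
    refine div_le_div_of_nonneg_right ?_ (Nat.cast_nonneg _)
    exact pow_le_pow_left₀ (Sf_nonneg (fη_nonneg η) _) (Sf_le_Z hη0 _) _

/-- factorials -/
lemma fact_bd (d t : ℕ) : (2 * d + t).factorial ≤ 4 ^ (2 * d + t) * (d.factorial ^ 2 * t.factorial)
    := by
  have h1 : (2 * d + t).factorial = (2 * d + t).choose t * t.factorial * (2 * d).factorial := by
    have := Nat.choose_mul_factorial_mul_factorial (n := 2 * d + t) (k := t) (by omega)
    rw [Nat.add_sub_cancel] at this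
    exact this.symm
  have h2 : (2 * d).factorial = (2 * d).choose d * d.factorial * d.factorial := by
    have := Nat.choose_mul_factorial_mul_factorial (n := 2 * d) (k := d) (by omega)
    rw [show 2 * d - d = d by omega] at this
    exact this.symm
  have h3 : (2 * d + t).choose t ≤ 2 ^ (2 * d + t) := Nat.choose_le_two_pow _ _
  have h4 : (2 * d).choose d ≤ 2 ^ (2 * d + t) :=
    (Nat.choose_le_two_pow _ _).trans (Nat.pow_le_pow_right (by omega) (by omega))
  rw [h1, h2]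
  calc (2 * d + t).choose t * t.factorial * ((2 * d).choose d * d.factorial * d.factorial) =
      ((2 * d + t).choose t * (2 * d).choose d) * (d.factorial ^ 2 * t.factorial) := by ring
    _ ≤ (2 ^ (2 * d + t) * 2 ^ (2 * d + t)) * (d.factorial ^ 2 * t.factorial) :=
        Nat.mul_le_mul_right _ (Nat.mul_le_mul h3 h4)
    _ = _ := by
        rw [← mul_pow]
        norm_num

/-- **the size of the values in terms of the weight** -/
lemma mz_Hof' {η : ℝ} (hη0 : 0 < η) (hη : η ≤ 1) {w : List ℕ} (hw : Hof w) (hw0 : w ≠ []) {k : ℕ}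
    (hk : w.sum = k) : mz w ≤ (4 * Zη η) ^ k * ((k.factorial : ℝ) ^ (1 - η))⁻¹ := by
  refine (mz_Hof hη0 hη hw hw0).trans ?_
  have h1 := Hof_sum hw
  rw [hk] at h1
  set d := w.length with hd
  set t := th w with ht
  have hdf : (0 : ℝ) < (d.factorial : ℝ) := by exact_mod_cast Nat.factorial_pos _
  have htf : (0 : ℝ) < (t.factorial : ℝ) := by exact_mod_cast Nat.factorial_pos _
  have hkf : (0 : ℝ) < (k.factorial : ℝ) := by exact_mod_cast Nat.factorial_pos _
  have hZ : 1 ≤ Zη η := Zη_one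
  have h2 : (k.factorial : ℝ) ≤ 4 ^ k * ((d.factorial : ℝ) ^ 2 * t.factorial) := by
    rw [h1]
    exact_mod_cast fact_bd d t
  have h3 : (Zη η) ^ d ≤ (Zη η) ^ k := pow_le_pow_right₀ hZ (by omega)
  have h4 : (d.factorial : ℝ) ^ η ≤ (k.factorial : ℝ) ^ η := by
    refine Real.rpow_le_rpow hdf.le ?_ hη0.le
    exact_mod_cast Nat.factorial_le (by omega)
  have e1 : ((d.factorial : ℝ) ^ (1 - η))⁻¹ = (d.factorial : ℝ) ^ η * (d.factorial : ℝ)⁻¹ := by
    rw [Real.rpow_sub hdf, Real.rpow_one, inv_div, div_eq_mul_inv]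
  have e2 : ((k.factorial : ℝ) ^ (1 - η))⁻¹ = (k.factorial : ℝ) ^ η * (k.factorial : ℝ)⁻¹ := by
    rw [Real.rpow_sub hkf, Real.rpow_one, inv_div, div_eq_mul_inv]
  have h5 : ((d.factorial : ℝ) ^ 2 * t.factorial)⁻¹ ≤ 4 ^ k * (k.factorial : ℝ)⁻¹ := by
    rw [← div_eq_mul_inv, inv_le_comm₀ (by positivity) (by positivity), inv_div,
      div_le_iff₀ (by positivity)]
    calc (k.factorial : ℝ) ≤ 4 ^ k * ((d.factorial : ℝ) ^ 2 * t.factorial) := h2
      _ = _ := by ring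
  rw [Qf, ← hd, ← ht, e1, e2, mul_pow]
  calc (d.factorial : ℝ) ^ η * (d.factorial : ℝ)⁻¹ * (t.factorial : ℝ)⁻¹ *
        ((Zη η) ^ d / (d.factorial : ℝ)) =
      ((d.factorial : ℝ) ^ η * (Zη η) ^ d) * ((d.factorial : ℝ) ^ 2 * t.factorial)⁻¹ := by
        rw [mul_inv, pow_two, mul_inv]
        ring
    _ ≤ ((k.factorial : ℝ) ^ η * (Zη η) ^ k) * (4 ^ k * (k.factorial : ℝ)⁻¹) :=
        mul_le_mul (mul_le_mul h4 h3 (by positivity) (by positivity)) h5 (by positivity)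
          (by positivity)
    _ = _ := by ring

/-- superexponential decay -/
lemma superexp (A γ : ℝ) (hA : 0 < A) (hγ : 0 < γ) :
    Tendsto (fun k : ℕ => A ^ k * ((k.factorial : ℝ) ^ γ)⁻¹) atTop (𝓝 0) := by
  have h1 := FloorSemiring.tendsto_pow_div_factorial_atTop (A ^ (1 / γ))
  have h2 := h1.rpow_const (p := γ) (Or.inr hγ.le)
  rw [Real.zero_rpow hγ.ne'] at h2
  refine h2.congr fun k => ?_
  have hk : (0 : ℝ) ≤ (k.factorial : ℝ) := Nat.cast_nonneg _
  rw [Real.div_rpow (by positivity) hk, div_eq_mul_inv]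
  congr 1
  rw [← Real.rpow_natCast, ← Real.rpow_mul (by positivity), ← Real.rpow_mul hA.le,
    ← Real.rpow_natCast]
  congr 1
  field_simp

/-- **short combinations against words in two and three** -/
theorem Hoff {l : ℕ} (β : Fin l → ℝ) (hβ : ∀ j, IsAlgebraic ℚ (β j))
    (hli : LinearIndependent ℚ β) (N r : ℕ) (δ C c : ℝ) (hδ : 0 < δ) (hc : c < 1) :
    ∃ B : ℝ, 1 < B ∧ ∃ k0 : ℕ, ∀ k : ℕ, k0 ≤ k → ∀ W H : Finset (List ℕ), W.card ≤ N →
      (∀ w ∈ W, (∀ m ∈ w, 1 ≤ m) ∧ w.sum = k ∧ ∀ s ∈ w.head?, δ * k ≤ s) →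
      (∀ h ∈ H, Hof h ∧ h.sum = k) → ∀ (a : List ℕ → Fin l → ℤ) (b : List ℕ → ℝ),
      (∃ w ∈ W, w.length ≤ r ∧ ∃ j, a w j ≠ 0) → (∀ w ∈ W, ∀ j, |(a w j : ℝ)| ≤ C ^ k) →
      (∀ h ∈ H, |b h| ≤ (k.factorial : ℝ) ^ c) →
      (B ^ k)⁻¹ < |∑ w ∈ W, ∑ j, (β j * a w j) * mz w - ∑ h ∈ H, b h * mz h| := by
  obtain ⟨B, hB, k1, h1⟩ := H1 β hβ hli N r δ 1 C hδ one_pos
  -- the exponent
  set c' : ℝ := max c 0 with hc'
  have hc1 : c' < 1 := max_lt hc one_pos
  have hc0 : 0 ≤ c' := le_max_right _ _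
  set η : ℝ := (1 - c') / 2 with hη
  have hη0 : 0 < η := by rw [hη]; linarith only [hc1]
  have hη1 : η ≤ 1 := by rw [hη]; linarith only [hc0]
  have hZ : 1 ≤ Zη η := Zη_one
  have ht := superexp (2 * (4 * Zη η) * B) η (by positivity) hη0
  obtain ⟨k2, h2⟩ := (ht.eventually (gt_mem_nhds (by norm_num : (0 : ℝ) < 1 / 2))
    ).exists_forall_of_atTop
  refine ⟨2 * B, by linarith only [hB], max (max k1 k2) 1, ?_⟩
  intro k hk W H hWN hW hH a b ha haC hb
  have hk1 : k1 ≤ k := (le_max_left _ _).trans ((le_max_left _ _).trans hk)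
  have hk2 : k2 ≤ k := (le_max_right _ _).trans ((le_max_left _ _).trans hk)
  have hk3 : 1 ≤ k := (le_max_right _ _).trans hk
  have h3 := h1 k hk1 W ∅ hWN hW (by simp) a (fun _ => 0) ha haC (by simp)
  rw [Finset.sum_empty, sub_zero] at h3
  have hBk : (0 : ℝ) < B ^ k := by positivity
  have hkf : (1 : ℝ) ≤ (k.factorial : ℝ) := by exact_mod_cast Nat.factorial_pos _
  have hkf0 : (0 : ℝ) < (k.factorial : ℝ) := by linarith only [hkf]
  have h4 : |∑ h ∈ H, b h * mz h| ≤ (B ^ k)⁻¹ / 2 := by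
    have h5 : ∀ h ∈ H, |b h * mz h| ≤ (k.factorial : ℝ) ^ c' *
        ((4 * Zη η) ^ k * ((k.factorial : ℝ) ^ (1 - η))⁻¹) := by
      intro h hh
      obtain ⟨e1, e2⟩ := hH h hh
      rw [abs_mul, abs_of_nonneg (mz_nonneg h)]
      refine mul_le_mul ((hb h hh).trans ?_) (mz_Hof' hη0 hη1 e1 ?_ e2) (mz_nonneg _)
        (by positivity)
      · exact Real.rpow_le_rpow_of_exponent_le hkf (le_max_left _ _)
      · rintro rfl
        rw [List.sum_nil] at e2
        omega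
    have h6 : (H.card : ℝ) ≤ 2 ^ k := by
      have := card_words H k (fun h hh => ⟨fun m hm => by
        rcases (hH h hh).1 m hm with rfl | rfl <;> omega, (hH h hh).2.le⟩)
      exact_mod_cast this
    have e3 : (k.factorial : ℝ) ^ c' * ((k.factorial : ℝ) ^ (1 - η))⁻¹ =
        ((k.factorial : ℝ) ^ η)⁻¹ := by
      rw [← Real.rpow_neg hkf0.le, ← Real.rpow_neg hkf0.le, ← Real.rpow_add hkf0]
      congr 1
      rw [hη]
      ring
    have h7 := h2 k hk2
    calc |∑ h ∈ H, b h * mz h| ≤ ∑ h ∈ H, |b h * mz h| := Finset.abs_sum_le_sum_abs _ _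
      _ ≤ ∑ h ∈ H, (k.factorial : ℝ) ^ c' *
          ((4 * Zη η) ^ k * ((k.factorial : ℝ) ^ (1 - η))⁻¹) := Finset.sum_le_sum h5
      _ = H.card * ((4 * Zη η) ^ k * ((k.factorial : ℝ) ^ η)⁻¹) := by
          rw [Finset.sum_const, nsmul_eq_mul, ← e3]
          ring
      _ ≤ 2 ^ k * ((4 * Zη η) ^ k * ((k.factorial : ℝ) ^ η)⁻¹) :=
          mul_le_mul_of_nonneg_right h6 (by positivity)
      _ = ((2 * (4 * Zη η) * B) ^ k * ((k.factorial : ℝ) ^ η)⁻¹) * (B ^ k)⁻¹ := by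
          rw [mul_pow _ B, mul_pow 2]
          field_simp
      _ ≤ 1 / 2 * (B ^ k)⁻¹ := mul_le_mul_of_nonneg_right h7.le (by positivity)
      _ = (B ^ k)⁻¹ / 2 := by ring
  have h7 : ((2 * B) ^ k)⁻¹ ≤ (B ^ k)⁻¹ / 2 := by
    rw [mul_pow, mul_inv]
    have h8 : (2 : ℝ) ≤ 2 ^ k := by
      calc (2 : ℝ) = 2 ^ 1 := (pow_one _).symm
        _ ≤ 2 ^ k := pow_le_pow_right₀ one_le_two (by omega)
    have h9 : ((2 : ℝ) ^ k)⁻¹ ≤ 1 / 2 := by
      rw [one_div]
      exact inv_anti₀ two_pos h8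
    calc ((2 : ℝ) ^ k)⁻¹ * (B ^ k)⁻¹ ≤ 1 / 2 * (B ^ k)⁻¹ :=
          mul_le_mul_of_nonneg_right h9 (by positivity)
      _ = _ := by ring
  have h10 := abs_sub_abs_le_abs_sub (∑ w ∈ W, ∑ j, (β j * a w j) * mz w) (∑ h ∈ H, b h * mz h)
  linarith only [h3, h4, h7, h10]

end Pool.Agent.Y777.AM
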