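import Pool.Agent.Y777.AM.G
import Pool.Agent.Y760.ZF.Prod

/-!
# Directness of the weight grading for short sums of products (helper777, after helper760)
-/

set_option autoImplicit false

namespace Pool.Agent.Y777.AM

open Filter Topology Pool.Agent.Y760.ZG Pool.Agent.Y760.ZF Pool.Agent.TH883.Zg

/-- the weight of a product -/
def wtM (M : List (List ℕ)) : ℕ := (M.map List.sum).sum

lemma sti_sum (u v : List ℕ) : ∀ w ∈ sti u v, w.sum = u.sum + v.sum := by
  induction u, v using sti.induct with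
  | case1 v =>
    intro w hw
    rw [sti, List.mem_singleton] at hw
    rw [hw, List.sum_nil, zero_add]
  | case2 i k =>
    intro w hw
    rw [sti, List.mem_singleton] at hw
    rw [hw, List.sum_nil, add_zero]
  | case3 i k j l ih1 ih2 ih3 =>
    intro w hw
    rw [sti, List.mem_append, List.mem_append, List.mem_map, List.mem_map, List.mem_map] at hw
    rcases hw with (⟨w', hw', rfl⟩ | ⟨w', hw', rfl⟩) | ⟨w', hw', rfl⟩
    · have := ih1 w' hw'
      simp only [List.sum_cons] at this ⊢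
      omega
    · have := ih2 w' hw'
      simp only [List.sum_cons] at this ⊢
      omega
    · have := ih3 w' hw'
      simp only [List.sum_cons] at this ⊢
      omega

lemma stil_sum (M : List (List ℕ)) : ∀ w ∈ stil M, w.sum = wtM M := by
  induction M with
  | nil =>
    intro w hw
    rw [stil, List.mem_singleton] at hw
    rw [hw]
    rfl
  | cons u M ih =>
    intro w hw
    rw [stil, List.mem_flatMap] at hw
    obtain ⟨v, hv, hw⟩ := hw
    rw [sti_sum u v w hw, ih v hv]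
    unfold wtM
    rw [List.map_cons, List.sum_cons]

lemma co_filter {l : ℕ} (T : Finset (List (List ℕ))) (c : List (List ℕ) → Fin l → ℤ) (p : ℕ)
    (w : List ℕ) (j : Fin l) :
    co (T.filter fun M => wtM M = p) c w j = if w.sum = p then co T c w j else 0 := by
  classical
  unfold co
  have h0 : ∀ M, wtM M ≠ w.sum → (stil M).countP (· = w) = 0 := by
    intro M hM
    rw [List.countP_eq_zero]
    intro w' hw' h
    rw [decide_eq_true_eq] at h
    subst h
    exact hM (stil_sum M _ hw').symm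
  by_cases hp : w.sum = p
  · rw [if_pos hp, Finset.sum_filter]
    refine Finset.sum_congr rfl fun M _ => ?_
    by_cases hM : wtM M = p
    · rw [if_pos hM]
    · rw [if_neg hM, h0 M (by rw [hp]; exact hM), Nat.cast_zero, mul_zero]
  · rw [if_neg hp]
    refine Finset.sum_eq_zero fun M hM => ?_
    rw [h0 M (by rw [(Finset.mem_filter.1 hM).2]; exact fun h => hp h.symm), Nat.cast_zero,
      mul_zero]

/-- **directness** -/
theorem dirM {l : ℕ} (β : Fin l → ℝ) (hβ : ∀ j, IsAlgebraic ℚ (β j))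
    (hli : LinearIndependent ℚ β) (N r d : ℕ) (κ C ε : ℝ) (hε : 0 < ε) :
    ∃ B : ℝ, 1 < B ∧ ∃ n0 : ℕ, ∀ n : ℕ, n0 ≤ n → ∀ T : Finset (List (List ℕ)), T.card ≤ N →
      (∀ M ∈ T, M.length ≤ d ∧ ∀ u ∈ M, Cl n (κ * n) r u) → ∀ c : List (List ℕ) → Fin l → ℤ,
      (∀ M ∈ T, ∀ j, |(c M j : ℝ)| ≤ C ^ n) →
      ∀ H : Finset (List ℕ), (∀ h ∈ H, h ≠ [] ∧ (∀ m ∈ h, 1 ≤ m) ∧ (∀ k ∈ h.head?, 2 ≤ k) ∧
        (h.sum : ℝ) ≤ κ * n ∧ ε * n ≤ ht h) → ∀ b : List ℕ → ℝ, (∀ h ∈ H, |b h| ≤ C ^ n) →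
      (∀ p : ℕ, ∑ M ∈ T with wtM M = p, (∑ j, β j * c M j) * (M.map mz).prod = 0) ∨
      (B ^ n)⁻¹ < |∑ M ∈ T, (∑ j, β j * c M j) * (M.map mz).prod - ∑ h ∈ H, b h * mz h| := by
  classical
  obtain ⟨B, hB, n0, hmain⟩ := mainM β hβ hli N r d κ C
  set Q : ℕ := ⌈κ⌉₊ with hQ
  set C' : ℝ := max (max |C| 1) (2 ^ Q) with hC'
  have hC1 : 1 ≤ C' := (le_max_right _ _).trans (le_max_left _ _)
  obtain ⟨n1, h2⟩ := small ε C' B Q hε hC1 hB
  refine ⟨2 * B, by linarith only [hB], max (max n0 n1) (d * r + 1), ?_⟩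
  intro n hn T hTN hT c hc H hH b hb
  have hn0 : n0 ≤ n := (le_max_left _ _).trans ((le_max_left _ _).trans hn)
  have hn1 : n1 ≤ n := (le_max_right _ _).trans ((le_max_left _ _).trans hn)
  have hn2 : d * r + 1 ≤ n := (le_max_right _ _).trans hn
  rcases hmain n hn0 T hTN hT c hc with ⟨h1, -⟩ | h1
  · left
    intro p
    set T' : Finset (List (List ℕ)) := T.filter fun M => wtM M = p with hT'
    have hT1 : ∀ M ∈ T', M.length ≤ d ∧ ∀ u ∈ M, Cl n (|κ| * n) r u := by
      intro M hM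
      obtain ⟨h3, h4⟩ := hT M (Finset.mem_filter.1 hM).1
      refine ⟨h3, fun u hu => ?_⟩
      obtain ⟨h5, h6, h7⟩ := h4 u hu
      refine ⟨h5, fun m hm => ⟨(h6 m hm).1, (h6 m hm).2.trans ?_⟩, h7⟩
      exact mul_le_mul_of_nonneg_right (le_abs_self κ) (Nat.cast_nonneg _)
    rw [val_expand β (K := |κ| * n) (by positivity) T' hT1 hn2 c
      (T'.biUnion fun M => (stil M).toFinset) (fun M hM w hw =>
        Finset.mem_biUnion.2 ⟨M, hM, List.mem_toFinset.2 hw⟩)]
    refine Finset.sum_eq_zero fun w _ => Finset.sum_eq_zero fun j _ => ?_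
    rw [hT', co_filter, h1]
    simp
  · right
    have h4 := h2 n hn1 H (by
      have hHQ : ∀ h ∈ H, h.sum ≤ Q * n := by
        intro h hh
        have h5 : (h.sum : ℝ) ≤ Q * n := (hH h hh).2.2.2.1.trans
          (mul_le_mul_of_nonneg_right (Nat.le_ceil κ) (Nat.cast_nonneg _))
        exact_mod_cast h5
      have h5 := card_words H (Q * n) (fun h hh => ⟨(hH h hh).2.1, hHQ h hh⟩)
      calc (H.card : ℝ) ≤ ((2 ^ (Q * n) : ℕ) : ℝ) := by exact_mod_cast h5
        _ = (2 ^ Q) ^ n := by rw [← pow_mul]; push_cast; rfl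
        _ ≤ C' ^ n := pow_le_pow_left₀ (by positivity) (le_max_right _ _) _) (by
      intro h hh
      obtain ⟨e1, e2, e3, e4, e5⟩ := hH h hh
      refine ⟨e1, e2, e3, ?_, e5⟩
      have h5 : (h.sum : ℝ) ≤ Q * n := e4.trans
          (mul_le_mul_of_nonneg_right (Nat.le_ceil κ) (Nat.cast_nonneg _))
      have h6 : h.sum ≤ Q * n := by exact_mod_cast h5
      exact (List.length_le_sum_of_one_le h e2).trans h6) b (by
      intro h hh
      refine (hb h hh).trans ((le_abs_self _).trans ?_)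
      rw [abs_pow]
      exact pow_le_pow_left₀ (abs_nonneg _) ((le_max_left _ _).trans (le_max_left _ _)) _)
    have h7 : ((2 * B) ^ n)⁻¹ ≤ (B ^ n)⁻¹ / 2 := by
      rw [mul_pow, mul_inv]
      have h8 : (2 : ℝ) ≤ 2 ^ n := by
        calc (2 : ℝ) = 2 ^ 1 := (pow_one _).symm
          _ ≤ 2 ^ n := pow_le_pow_right₀ one_le_two (by omega)
      have h9 : ((2 : ℝ) ^ n)⁻¹ ≤ 1 / 2 := by
        rw [one_div]
        exact inv_anti₀ two_pos h8
      have hBn : 0 < B ^ n := by positivity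
      calc ((2 : ℝ) ^ n)⁻¹ * (B ^ n)⁻¹ ≤ 1 / 2 * (B ^ n)⁻¹ :=
            mul_le_mul_of_nonneg_right h9 (by positivity)
        _ = _ := by ring
    have h10 := abs_sub_abs_le_abs_sub (∑ M ∈ T, (∑ j, β j * c M j) * (M.map mz).prod)
      (∑ h ∈ H, b h * mz h)
    linarith only [h1, h4, h7, h10]

end Pool.Agent.Y777.AM
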