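import Pool.Agent.Y777.AM.G

/-!
# The theorem for multiple zeta values of the same weight (helper777)
-/

set_option autoImplicit false

namespace Pool.Agent.Y777.AM

open Filter Topology Pool.Agent.Y760.ZG Pool.Agent.Y777.AL Pool.Agent.TH883.Zg

theorem H1 {l : ℕ} (β : Fin l → ℝ) (hβ : ∀ j, IsAlgebraic ℚ (β j))
    (hli : LinearIndependent ℚ β) (N r : ℕ) (δ ε C : ℝ) (hδ : 0 < δ) (hε : 0 < ε) :
    ∃ B : ℝ, 1 < B ∧ ∃ k0 : ℕ, ∀ k : ℕ, k0 ≤ k → ∀ W H : Finset (List ℕ), W.card ≤ N →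
      (∀ w ∈ W, (∀ m ∈ w, 1 ≤ m) ∧ w.sum = k ∧ ∀ s ∈ w.head?, δ * k ≤ s) →
      (∀ h ∈ H, (∀ m ∈ h, 1 ≤ m) ∧ h.sum = k ∧ (∀ s ∈ h.head?, 2 ≤ s) ∧ ε * k ≤ ht h) →
      ∀ (a : List ℕ → Fin l → ℤ) (b : List ℕ → ℝ),
      (∃ w ∈ W, w.length ≤ r ∧ ∃ j, a w j ≠ 0) → (∀ w ∈ W, ∀ j, |(a w j : ℝ)| ≤ C ^ k) →
      (∀ h ∈ H, |b h| ≤ C ^ k) →
      (B ^ k)⁻¹ < |∑ w ∈ W, ∑ j, (β j * a w j) * mz w - ∑ h ∈ H, b h * mz h| := by
  set R : ℕ := ⌈1 / δ⌉₊ with hR
  have hR1 : 1 ≤ R := Nat.one_le_ceil_iff.2 (by positivity)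
  set C1 : ℝ := max |C| 1 with hC1
  obtain ⟨B, hB, n0, h⟩ := F1H β hβ hli N (max r R) R R (C1 ^ R) ε hε
  refine ⟨max B 2 ^ 1, by rw [pow_one]; exact lt_max_of_lt_left hB, R * n0 + 1, ?_⟩
  intro k hk W H hWN hW hH a b ha haC hbC
  set n : ℕ := ⌈δ * k⌉₊ with hn
  have hkR : k ≤ R * n := by
    have h1 : (k : ℝ) ≤ (R : ℝ) * n := by
      calc (k : ℝ) = 1 / δ * (δ * k) := by field_simp
        _ ≤ R * n := mul_le_mul (Nat.le_ceil _) (Nat.le_ceil _) (by positivity)
            (Nat.cast_nonneg _)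
    exact_mod_cast h1
  have hn0 : n0 ≤ n := by
    by_contra hlt
    push Not at hlt
    have h1 : R * n ≤ R * n0 := Nat.mul_le_mul_left _ hlt.le
    omega
  have hk1 : 1 ≤ k := by omega
  by_cases hnk : n ≤ k
  swap
  · -- no words in `W`
    exfalso
    obtain ⟨w, hw, -⟩ := ha
    obtain ⟨h1, h2, h3⟩ := hW w hw
    cases w with
    | nil =>
      rw [List.sum_nil] at h2
      omega
    | cons c u =>
      have h4 := h3 c (by simp)
      have h5 : n ≤ c := Nat.ceil_le.2 h4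
      have h6 : c ≤ k := by
        rw [← h2, List.sum_cons]
        omega
      omega
  have hpow : ∀ x : ℝ, |x| ≤ C ^ k → |x| ≤ (C1 ^ R) ^ n := by
    intro x hx
    refine hx.trans ((le_abs_self _).trans ?_)
    rw [abs_pow, ← pow_mul]
    exact (pow_le_pow_left₀ (abs_nonneg _) (le_max_left _ _) _).trans
      (pow_le_pow_right₀ (le_max_right _ _) hkR)
  have h1 := h n hn0 W hWN (by
      intro w hw
      obtain ⟨h1, h2, h3⟩ := hW w hw
      refine ⟨h1, fun s hs => ?_⟩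
      have h4 : n ≤ s := Nat.ceil_le.2 (h3 s hs)
      refine ⟨h4, fun m hm => ?_⟩
      have h5 : m ≤ R * s := by
        calc m ≤ w.sum := List.single_le_sum (fun _ _ => Nat.zero_le _) m hm
          _ = k := h2
          _ ≤ R * n := hkR
          _ ≤ R * s := Nat.mul_le_mul_left _ h4
      exact_mod_cast h5) a (by
      obtain ⟨w, hw, h2, h3⟩ := ha
      obtain ⟨h4, h5, h6⟩ := hW w hw
      refine ⟨w, hw, ?_, ⟨h2.trans (le_max_left _ _), fun s hs => ?_⟩, h3⟩
      · rintro rfl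
        rw [List.sum_nil] at h5
        omega
      · have h7 : s ≤ k := by
          cases w with
          | nil => simp at hs
          | cons c u =>
            rw [List.head?_cons, Option.mem_some_iff] at hs
            rw [← h5, ← hs, List.sum_cons]
            omega
        exact h7.trans (hkR.trans (Nat.mul_le_mul_right _ (le_max_right _ _))))
    (fun w hw j => hpow _ (haC w hw j)) H (by
      intro h hh
      obtain ⟨h1, h2, h3, h4⟩ := hH h hh
      refine ⟨?_, h1, h3, h2.le.trans hkR, ?_⟩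
      · rintro rfl
        rw [List.sum_nil] at h2
        omega
      · refine le_trans ?_ h4
        have : (n : ℝ) ≤ k := by exact_mod_cast hnk
        exact mul_le_mul_of_nonneg_left this hε.le) b (fun h hh => hpow _ (hbC h hh))
  refine lt_of_le_of_lt ?_ h1
  rw [pow_one]
  refine inv_anti₀ (by positivity) ?_
  calc B ^ n ≤ (max B 2) ^ n := pow_le_pow_left₀ (by linarith only [hB]) (le_max_left _ _) _
    _ ≤ (max B 2) ^ k := pow_le_pow_right₀
        (by have := le_max_right B 2; linarith only [this]) hnk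

end Pool.Agent.Y777.AM
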