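import Pool.Agent.Y777.AM.D

/-!
# Multiple zeta values of the same weight, all weights at once (helper777)
-/

set_option autoImplicit false

namespace Pool.Agent.Y777.AM

open Filter Topology Pool.Agent.Y760.ZG Pool.Agent.Y777.AL Pool.Agent.TH883.Zg

theorem G_ind {l : ℕ} (β : Fin l → ℝ) (hβ : ∀ j, IsAlgebraic ℚ (β j))
    (hli : LinearIndependent ℚ β) (N : ℕ) (κ C : ℝ) (hC : 1 ≤ C) (hκ : 1 ≤ κ) (M : ℕ) :
    ∀ K : ℕ, ∃ B : ℝ, 1 < B ∧ ∃ n0 : ℕ, ∀ n : ℕ, n0 ≤ n → ∀ k : ℕ,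
      ∀ W : Finset (List ℕ), W.card ≤ N → (∀ w ∈ W, Wg n κ w ∧ w.sum = k) →
      (W.filter fun w => ¬ Fi n K w).card ≤ M → ∀ a : List ℕ → Fin l → ℤ,
      (∃ w ∈ W, Fi n K w ∧ ∃ j, a w j ≠ 0) → (∀ w ∈ W, ∀ j, |(a w j : ℝ)| ≤ C ^ n) →
      (B ^ n)⁻¹ < |∑ w ∈ W, ∑ j, (β j * a w j) * mz w| := by
  classical
  induction M with
  | zero =>
    intro K
    obtain ⟨B, hB, K1, K2, n0, h⟩ := G_step β hβ hli N K κ C hC hκ
    obtain ⟨B2, hB2, n2, h2⟩ := F1 β hβ hli N K K2 C
    refine ⟨max B B2, lt_max_of_lt_left hB, max n0 n2, ?_⟩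
    intro n hn k W hWN hW hc a ha haC
    by_cases hk : K2 * n < k
    · refine lt_of_le_of_lt ?_ (h n ((le_max_left _ _).trans hn) k hk W hWN hW ?_ a ha haC)
      · refine inv_anti₀ (by positivity) ?_
        exact pow_le_pow_left₀ (by linarith only [hB]) (le_max_left _ _) _
      · intro w hw
        left
        by_contra hF
        have h1 : w ∈ W.filter fun w => ¬ Fi n K w := Finset.mem_filter.2 ⟨hw, hF⟩
        rw [Finset.card_eq_zero.1 (Nat.le_zero.1 hc)] at h1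
        simp at h1
    · refine lt_of_le_of_lt ?_ (h2 n ((le_max_right _ _).trans hn) W hWN ?_ a ?_ haC)
      · refine inv_anti₀ (by positivity) ?_
        exact pow_le_pow_left₀ (by linarith only [hB2]) (le_max_right _ _) _
      · intro w hw
        obtain ⟨⟨h3, h4, h5⟩, h6⟩ := hW w hw
        refine ⟨h4, fun k' hk' => ⟨(h5 k' hk').1, fun m hm => ?_⟩⟩
        have h7 : m ≤ K2 * k' := by
          calc m ≤ w.sum := List.single_le_sum (fun _ _ => Nat.zero_le _) m hm
            _ ≤ K2 * n := by omega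
            _ ≤ K2 * k' := Nat.mul_le_mul_left _ (h5 k' hk').1
        exact_mod_cast h7
      · obtain ⟨w, hw, h3, h4⟩ := ha
        exact ⟨w, hw, (hW w hw).1.1, h3, h4⟩
  | succ M ih =>
    intro K
    obtain ⟨B, hB, K1, K2, n0, h⟩ := G_step β hβ hli N K κ C hC hκ
    obtain ⟨B2, hB2, n2, h2⟩ := F1 β hβ hli N K K2 C
    obtain ⟨B', hB', n0', h'⟩ := ih (max K K1)
    refine ⟨max (max B B2) B', lt_max_of_lt_left (lt_max_of_lt_left hB), max (max n0 n2) n0', ?_⟩
    intro n hn k W hWN hW hc a ha haC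
    have hn0 : n0 ≤ n := ((le_max_left _ _).trans (le_max_left _ _)).trans hn
    have hn2 : n2 ≤ n := ((le_max_right _ _).trans (le_max_left _ _)).trans hn
    have hn0' : n0' ≤ n := (le_max_right _ _).trans hn
    have hBB : B ≤ max (max B B2) B' := (le_max_left _ _).trans (le_max_left _ _)
    have hBB2 : B2 ≤ max (max B B2) B' := (le_max_right _ _).trans (le_max_left _ _)
    have hBB' : B' ≤ max (max B B2) B' := le_max_right _ _
    by_cases hk : K2 * n < k
    · by_cases hall : ∀ w ∈ W, Fi n K w ∨ In n K1 w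
      · refine lt_of_le_of_lt ?_ (h n hn0 k hk W hWN hW hall a ha haC)
        refine inv_anti₀ (by positivity) ?_
        exact pow_le_pow_left₀ (by linarith only [hB]) hBB _
      · push Not at hall
        obtain ⟨w1, hw1, hF1, hI1⟩ := hall
        have hF1' : Fi n (max K K1) w1 := by
          by_contra hcon
          exact hI1 (In_mono (le_max_right K K1) (not_Fi hcon))
        refine lt_of_le_of_lt ?_ (h' n hn0' k W hWN hW ?_ a ?_ haC)
        · refine inv_anti₀ (by positivity) ?_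
          exact pow_le_pow_left₀ (by linarith only [hB']) hBB' _
        · have h2 : (W.filter fun w => ¬ Fi n (max K K1) w) ⊂ W.filter fun w => ¬ Fi n K w := by
            refine Finset.ssubset_iff_subset_ne.2 ⟨fun w hw => ?_, fun heq => ?_⟩
            · obtain ⟨h3, h4⟩ := Finset.mem_filter.1 hw
              exact Finset.mem_filter.2 ⟨h3, fun h5 => h4 (Fi_mono (le_max_left _ _) h5)⟩
            · have h3 : w1 ∈ W.filter fun w => ¬ Fi n K w := Finset.mem_filter.2 ⟨hw1, hF1⟩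
              rw [← heq] at h3
              exact (Finset.mem_filter.1 h3).2 hF1'
          have h3 := Finset.card_lt_card h2
          omega
        · obtain ⟨w, hw, hwF, hj⟩ := ha
          exact ⟨w, hw, Fi_mono (le_max_left _ _) hwF, hj⟩
    · refine lt_of_le_of_lt ?_ (h2 n hn2 W hWN ?_ a ?_ haC)
      · refine inv_anti₀ (by positivity) ?_
        exact pow_le_pow_left₀ (by linarith only [hB2]) hBB2 _
      · intro w hw
        obtain ⟨⟨h3, h4, h5⟩, h6⟩ := hW w hw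
        refine ⟨h4, fun k' hk' => ⟨(h5 k' hk').1, fun m hm => ?_⟩⟩
        have h7 : m ≤ K2 * k' := by
          calc m ≤ w.sum := List.single_le_sum (fun _ _ => Nat.zero_le _) m hm
            _ ≤ K2 * n := by omega
            _ ≤ K2 * k' := Nat.mul_le_mul_left _ (h5 k' hk').1
        exact_mod_cast h7
      · obtain ⟨w, hw, h3, h4⟩ := ha
        exact ⟨w, hw, (hW w hw).1.1, h3, h4⟩

/-- **the theorem for the same weight** -/
theorem G1 {l : ℕ} (β : Fin l → ℝ) (hβ : ∀ j, IsAlgebraic ℚ (β j))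
    (hli : LinearIndependent ℚ β) (N K : ℕ) (κ C : ℝ) :
    ∃ B : ℝ, 1 < B ∧ ∃ n0 : ℕ, ∀ n : ℕ, n0 ≤ n → ∀ k : ℕ,
      ∀ W : Finset (List ℕ), W.card ≤ N → (∀ w ∈ W, Wg n κ w ∧ w.sum = k) →
      ∀ a : List ℕ → Fin l → ℤ, (∃ w ∈ W, Fi n K w ∧ ∃ j, a w j ≠ 0) →
      (∀ w ∈ W, ∀ j, |(a w j : ℝ)| ≤ C ^ n) →
      (B ^ n)⁻¹ < |∑ w ∈ W, ∑ j, (β j * a w j) * mz w| := by
  obtain ⟨B, hB, n0, h⟩ := G_ind β hβ hli N (max κ 1) (max |C| 1) (le_max_right _ _)
    (le_max_right _ _) N K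
  refine ⟨B, hB, n0, fun n hn k W hWN hW a ha haC => h n hn k W hWN ?_
    ((Finset.card_filter_le _ _).trans hWN) a ha ?_⟩
  · intro w hw
    obtain ⟨⟨h0, h1, h2⟩, h3⟩ := hW w hw
    refine ⟨⟨h0, h1, fun k hk => ⟨(h2 k hk).1, fun m hm => ((h2 k hk).2 m hm).trans ?_⟩⟩, h3⟩
    exact mul_le_mul_of_nonneg_right (le_max_left _ _) (Nat.cast_nonneg _)
  · intro w hw j
    refine (haC w hw j).trans ((le_abs_self _).trans ?_)
    rw [abs_pow]
    exact pow_le_pow_left₀ (abs_nonneg _) (le_max_left _ _) _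

end Pool.Agent.Y777.AM
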