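import Pool.Agent.Y777.AM.Z

/-!
# Arbitrarily many further terms of large depth (helper777)
-/

set_option autoImplicit false

namespace Pool.Agent.Y777.AM

open Filter Topology Pool.Agent.Y760.ZG Pool.Agent.Y777.AL Pool.Agent.TH883.Zg

/-- **arbitrarily many terms of large depth** -/
theorem F1H2 {l : ℕ} (β : Fin l → ℝ) (hβ : ∀ j, IsAlgebraic ℚ (β j))
    (hli : LinearIndependent ℚ β) (N K Q : ℕ) (κ C ε : ℝ) (hε : 0 < ε) :
    ∃ B : ℝ, 1 < B ∧ ∃ K1 : ℕ, ∃ n0 : ℕ, ∀ n : ℕ, n0 ≤ n → ∀ W : Finset (List ℕ), W.card ≤ N →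
      (∀ w ∈ W, Wf n κ w) → ∀ a : List ℕ → Fin l → ℤ,
      (∃ w ∈ W, w ≠ [] ∧ Fi n K w ∧ ∃ j, a w j ≠ 0) → (∀ w ∈ W, ∀ j, |(a w j : ℝ)| ≤ C ^ n) →
      ∀ H : Finset (List ℕ), (∀ h ∈ H, h ≠ [] ∧ (∀ m ∈ h, 1 ≤ m) ∧ (∀ k ∈ h.head?, 2 ≤ k) ∧
        h.sum ≤ Q * n ∧ (ε * n ≤ ht h ∨ (K1 ≤ h.length ∧ ∀ k ∈ h.head?, n ≤ k))) →
      ∀ b : List ℕ → ℝ, (∀ h ∈ H, |b h| ≤ C ^ n) →
      (B ^ n)⁻¹ < |∑ w ∈ W, ∑ j, (β j * a w j) * mz w - ∑ h ∈ H, b h * mz h| := by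
  classical
  obtain ⟨B, hB, n0, h1⟩ := F1H β hβ hli N K Q κ C ε hε
  set C' : ℝ := max (max |C| 1) (2 ^ Q) with hC'
  have hC1 : 1 ≤ C' := (le_max_right _ _).trans (le_max_left _ _)
  obtain ⟨K2, hK2, n2, hn2, hthr⟩ := thr (B * (C' * C')) (8 * ze 2)
    (by nlinarith only [hB, hC1, mul_self_nonneg (C' - 1)])
  refine ⟨2 * B, by linarith only [hB], K2 + 1, max (max n0 n2) 1, ?_⟩
  intro n hn W hWN hW a ha haC H hH b hb
  have hn0 : n0 ≤ n := (le_max_left _ _).trans ((le_max_left _ _).trans hn)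
  have hn2' : n2 ≤ n := (le_max_right _ _).trans ((le_max_left _ _).trans hn)
  have hn3 : 3 ≤ n := hn2.trans hn2'
  set H1 : Finset (List ℕ) := H.filter fun h => ε * n ≤ ht h with hH1
  set H2 : Finset (List ℕ) := H.filter fun h => ¬ ε * n ≤ ht h with hH2
  have e1 : ∑ h ∈ H, b h * mz h = ∑ h ∈ H1, b h * mz h + ∑ h ∈ H2, b h * mz h :=
    (Finset.sum_filter_add_sum_filter_not H _ _).symm
  have h3 := h1 n hn0 W hWN hW a ha haC H1 (by
      intro h hh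
      obtain ⟨h4, h5⟩ := Finset.mem_filter.1 hh
      obtain ⟨e1, e2, e3, e4, -⟩ := hH h h4
      exact ⟨e1, e2, e3, e4, h5⟩) b (fun h hh => hb h (Finset.mem_filter.1 hh).1)
  have hBn : (0 : ℝ) < B ^ n := by positivity
  have hCn : (0 : ℝ) < C' ^ n := by positivity
  have hcard : (H2.card : ℝ) ≤ C' ^ n := by
    have h5 := card_words H2 (Q * n) (fun h hh =>
      ⟨(hH h (Finset.mem_filter.1 hh).1).2.1, (hH h (Finset.mem_filter.1 hh).1).2.2.2.1⟩)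
    calc (H2.card : ℝ) ≤ ((2 ^ (Q * n) : ℕ) : ℝ) := by exact_mod_cast h5
      _ = (2 ^ Q) ^ n := by rw [← pow_mul]; push_cast; rfl
      _ ≤ C' ^ n := pow_le_pow_left₀ (by positivity) (le_max_right _ _) _
  have h4 : |∑ h ∈ H2, b h * mz h| ≤ (B ^ n)⁻¹ / 2 := by
    have h5 : ∀ h ∈ H2, |b h * mz h| ≤ C' ^ n *
        (8 * ze 2 * (K2 : ℝ) ^ 3 * ((K2 : ℝ) ^ n)⁻¹) := by
      intro h hh
      obtain ⟨hh1, hh2⟩ := Finset.mem_filter.1 hh
      obtain ⟨e1, e2, e3, e4, e5⟩ := hH h hh1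
      obtain ⟨e6, e7⟩ := e5.resolve_left hh2
      have hIn : In n K2 h := by
        cases h with
        | nil => exact absurd rfl e1
        | cons c u => exact ⟨c, u, rfl, Or.inr (by omega)⟩
      have h6 := mz_inf hn3 hK2 hIn e2 e7
      have h7 : dl h = 0 := by
        unfold dl
        rw [if_neg (by omega)]
      rw [h7, sub_zero] at h6
      rw [abs_mul]
      refine mul_le_mul ((hb h hh1).trans ((le_abs_self _).trans ?_)) h6 (abs_nonneg _) hCn.le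
      rw [abs_pow]
      exact pow_le_pow_left₀ (abs_nonneg _) ((le_max_left _ _).trans (le_max_left _ _)) _
    have h8 := hthr n hn2' K2 rfl
    rw [mul_pow, mul_pow, mul_inv, mul_inv] at h8
    calc |∑ h ∈ H2, b h * mz h| ≤ ∑ h ∈ H2, |b h * mz h| := Finset.abs_sum_le_sum_abs _ _
      _ ≤ ∑ h ∈ H2, C' ^ n * (8 * ze 2 * (K2 : ℝ) ^ 3 * ((K2 : ℝ) ^ n)⁻¹) :=
          Finset.sum_le_sum h5
      _ = H2.card * (C' ^ n * (8 * ze 2 * (K2 : ℝ) ^ 3 * ((K2 : ℝ) ^ n)⁻¹)) := by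
          rw [Finset.sum_const, nsmul_eq_mul]
      _ ≤ C' ^ n * (C' ^ n * (8 * ze 2 * (K2 : ℝ) ^ 3 * ((K2 : ℝ) ^ n)⁻¹)) :=
          mul_le_mul_of_nonneg_right hcard (by have := ze2_pos; positivity)
      _ = C' ^ n * C' ^ n * (8 * ze 2 * ((K2 : ℝ) ^ 3 * ((K2 : ℝ) ^ n)⁻¹)) := by ring
      _ ≤ C' ^ n * C' ^ n * ((B ^ n)⁻¹ * ((C' ^ n)⁻¹ * (C' ^ n)⁻¹) / 2) := by
          refine mul_le_mul_of_nonneg_left ?_ (by positivity)
          rw [← mul_inv]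
          rw [← mul_inv] at h8
          exact h8
      _ = (B ^ n)⁻¹ / 2 := by field_simp
  have h7 : ((2 * B) ^ n)⁻¹ ≤ (B ^ n)⁻¹ / 2 := by
    rw [mul_pow, mul_inv]
    have h8 : (2 : ℝ) ≤ 2 ^ n := by
      calc (2 : ℝ) = 2 ^ 1 := (pow_one _).symm
        _ ≤ 2 ^ n := pow_le_pow_right₀ one_le_two (by omega)
    have h9 : ((2 : ℝ) ^ n)⁻¹ ≤ 1 / 2 := by
      rw [one_div]
      exact inv_anti₀ two_pos h8
    calc ((2 : ℝ) ^ n)⁻¹ * (B ^ n)⁻¹ ≤ 1 / 2 * (B ^ n)⁻¹ :=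
          mul_le_mul_of_nonneg_right h9 (by positivity)
      _ = _ := by ring
  have h10 := abs_sub_abs_le_abs_sub (∑ w ∈ W, ∑ j, (β j * a w j) * mz w -
    ∑ h ∈ H1, b h * mz h) (∑ h ∈ H2, b h * mz h)
  rw [e1, ← sub_sub]
  linarith only [h3, h4, h7, h10]

/-- **the theorem in a fixed weight with arbitrarily many terms of large depth** -/
theorem H2' {l : ℕ} (β : Fin l → ℝ) (hβ : ∀ j, IsAlgebraic ℚ (β j))
    (hli : LinearIndependent ℚ β) (N r : ℕ) (δ ε C : ℝ) (hδ : 0 < δ) (hε : 0 < ε) :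
    ∃ B : ℝ, 1 < B ∧ ∃ K1 : ℕ, ∃ k0 : ℕ, ∀ k : ℕ, k0 ≤ k → ∀ W H : Finset (List ℕ), W.card ≤ N →
      (∀ w ∈ W, (∀ m ∈ w, 1 ≤ m) ∧ w.sum = k ∧ ∀ s ∈ w.head?, δ * k ≤ s) →
      (∀ h ∈ H, (∀ m ∈ h, 1 ≤ m) ∧ h.sum = k ∧ (∀ s ∈ h.head?, 2 ≤ s) ∧
        (ε * k ≤ ht h ∨ (K1 ≤ h.length ∧ ∀ s ∈ h.head?, δ * k ≤ s))) →
      ∀ (a : List ℕ → Fin l → ℤ) (b : List ℕ → ℝ),
      (∃ w ∈ W, w.length ≤ r ∧ ∃ j, a w j ≠ 0) → (∀ w ∈ W, ∀ j, |(a w j : ℝ)| ≤ C ^ k) →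
      (∀ h ∈ H, |b h| ≤ C ^ k) →
      (B ^ k)⁻¹ < |∑ w ∈ W, ∑ j, (β j * a w j) * mz w - ∑ h ∈ H, b h * mz h| := by
  set R : ℕ := ⌈1 / δ⌉₊ with hR
  have hR1 : 1 ≤ R := Nat.one_le_ceil_iff.2 (by positivity)
  set C1 : ℝ := max |C| 1 with hC1
  obtain ⟨B, hB, K1, n0, h⟩ := F1H2 β hβ hli N (max r R) R R (C1 ^ R) ε hε
  refine ⟨max B 2 ^ 1, by rw [pow_one]; exact lt_max_of_lt_left hB, K1, R * n0 + 1, ?_⟩
  intro k hk W H hWN hW hH a b ha haC hbC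
  set n : ℕ := ⌈δ * k⌉₊ with hn
  have hkR : k ≤ R * n := by
    have h1 : (k : ℝ) ≤ (R : ℝ) * n := by
      calc (k : ℝ) = 1 / δ * (δ * k) := by field_simp
        _ ≤ R * n := mul_le_mul (Nat.le_ceil _) (Nat.le_ceil _) (by positivity)
            (Nat.cast_nonneg _)
    exact_mod_cast h1
  have hn0 : n0 ≤ n := by
    by_contra hlt
    push Not at hlt
    have h1 : R * n ≤ R * n0 := Nat.mul_le_mul_left _ hlt.le
    omega
  have hk1 : 1 ≤ k := by omega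
  by_cases hnk : n ≤ k
  swap
  · -- no words in `W`
    exfalso
    obtain ⟨w, hw, -⟩ := ha
    obtain ⟨h1, h2, h3⟩ := hW w hw
    cases w with
    | nil =>
      rw [List.sum_nil] at h2
      omega
    | cons c u =>
      have h4 := h3 c (by simp)
      have h5 : n ≤ c := Nat.ceil_le.2 h4
      have h6 : c ≤ k := by
        rw [← h2, List.sum_cons]
        omega
      omega
  have hpow : ∀ x : ℝ, |x| ≤ C ^ k → |x| ≤ (C1 ^ R) ^ n := by
    intro x hx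
    refine hx.trans ((le_abs_self _).trans ?_)
    rw [abs_pow, ← pow_mul]
    exact (pow_le_pow_left₀ (abs_nonneg _) (le_max_left _ _) _).trans
      (pow_le_pow_right₀ (le_max_right _ _) hkR)
  have h1 := h n hn0 W hWN (by
      intro w hw
      obtain ⟨h1, h2, h3⟩ := hW w hw
      refine ⟨h1, fun s hs => ?_⟩
      have h4 : n ≤ s := Nat.ceil_le.2 (h3 s hs)
      refine ⟨h4, fun m hm => ?_⟩
      have h5 : m ≤ R * s := by
        calc m ≤ w.sum := List.single_le_sum (fun _ _ => Nat.zero_le _) m hm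
          _ = k := h2
          _ ≤ R * n := hkR
          _ ≤ R * s := Nat.mul_le_mul_left _ h4
      exact_mod_cast h5) a (by
      obtain ⟨w, hw, h2, h3⟩ := ha
      obtain ⟨h4, h5, h6⟩ := hW w hw
      refine ⟨w, hw, ?_, ⟨h2.trans (le_max_left _ _), fun s hs => ?_⟩, h3⟩
      · rintro rfl
        rw [List.sum_nil] at h5
        omega
      · have h7 : s ≤ k := by
          cases w with
          | nil => simp at hs
          | cons c u =>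
            rw [List.head?_cons, Option.mem_some_iff] at hs
            rw [← h5, ← hs, List.sum_cons]
            omega
        exact h7.trans (hkR.trans (Nat.mul_le_mul_right _ (le_max_right _ _))))
    (fun w hw j => hpow _ (haC w hw j)) H (by
      intro h hh
      obtain ⟨h1, h2, h3, h4⟩ := hH h hh
      refine ⟨?_, h1, h3, h2.le.trans hkR, ?_⟩
      · rintro rfl
        rw [List.sum_nil] at h2
        omega
      · rcases h4 with h4 | ⟨h4, h5⟩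
        · left
          refine le_trans ?_ h4
          have : (n : ℝ) ≤ k := by exact_mod_cast hnk
          exact mul_le_mul_of_nonneg_left this hε.le
        · right
          exact ⟨h4, fun s hs => Nat.ceil_le.2 (h5 s hs)⟩) b (fun h hh => hpow _ (hbC h hh))
  refine lt_of_le_of_lt ?_ h1
  rw [pow_one]
  refine inv_anti₀ (by positivity) ?_
  calc B ^ n ≤ (max B 2) ^ n := pow_le_pow_left₀ (by linarith only [hB]) (le_max_left _ _) _
    _ ≤ (max B 2) ^ k := pow_le_pow_right₀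
        (by have := le_max_right B 2; linarith only [this]) hnk

end Pool.Agent.Y777.AM
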