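import Pool.Agent.Y777.AL.L

/-!
# Bounds for multiple zeta values of large depth or with very large first argument (helper777)
-/

set_option autoImplicit false

namespace Pool.Agent.Y777.AM

open Filter Topology Pool.Agent.Y760.ZG Pool.Agent.Y777.AL Pool.Agent.TH883.Zg

lemma hr_le_self (l : List ℕ) (hl : ∀ m ∈ l, 1 ≤ m) : ∀ m : ℕ, 1 ≤ m → hr l m ≤ m := by
  induction l with
  | nil =>
    intro m hm
    rw [hr_nil]
    exact_mod_cast hm
  | cons a l ih =>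
    intro m hm
    rw [hr_cons]
    have ih' := ih fun x hx => hl x (List.mem_cons_of_mem _ hx)
    have ha := hl a List.mem_cons_self
    calc ∑ j ∈ Finset.Ico 1 m, hr l j / (j : ℝ) ^ a ≤ ∑ j ∈ Finset.Ico 1 m, (1 : ℝ) := by
          refine Finset.sum_le_sum fun j hj => ?_
          have hj1 := (Finset.mem_Ico.1 hj).1
          have h1 : (1 : ℝ) ≤ j := by exact_mod_cast hj1
          rw [div_le_one (by positivity)]
          refine (ih' j hj1).trans ?_
          calc (j : ℝ) = (j : ℝ) ^ 1 := (pow_one _).symm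
            _ ≤ (j : ℝ) ^ a := pow_le_pow_right₀ h1 ha
      _ = ((m - 1 : ℕ) : ℝ) := by
          rw [Finset.sum_const, Nat.card_Ico, nsmul_eq_mul, mul_one]
      _ ≤ (m : ℝ) := by exact_mod_cast Nat.sub_le m 1

lemma hr_zero (l : List ℕ) : l ≠ [] → ∀ m : ℕ, m ≤ l.length → hr l m = 0 := by
  induction l with
  | nil => intro h; exact absurd rfl h
  | cons a l ih =>
    intro _ m hm
    rw [hr_cons]
    refine Finset.sum_eq_zero fun j hj => ?_
    obtain ⟨h1, h2⟩ := Finset.mem_Ico.1 hj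
    rw [List.length_cons] at hm
    have hl : l ≠ [] := by
      rintro rfl
      rw [List.length_nil] at hm
      omega
    rw [ih hl j (by omega), zero_div]

/-- the value of an infinite word -/
noncomputable def dl (w : List ℕ) : ℝ := if w.length = 1 then 1 else 0

lemma mz_bd (a : ℕ) (u : List ℕ) (hu : ∀ m ∈ u, 1 ≤ m) (ha : 3 ≤ a) {k : ℕ}
    (hk : k = max (u.length + 1) 2) :
    |mz (a :: u) - dl (a :: u)| ≤ ze 2 * (k : ℝ) ^ 3 * ((k : ℝ) ^ a)⁻¹ := by
  have hf : ∀ m : ℕ, 1 ≤ m → |hr u m / (m : ℝ) ^ a| ≤ 1 * (m : ℝ) ^ 1 * ((m : ℝ) ^ a)⁻¹ := by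
    intro m hm
    rw [abs_of_nonneg (div_nonneg (hr_nonneg _ _) (by positivity)), one_mul, pow_one,
      div_eq_mul_inv]
    exact mul_le_mul_of_nonneg_right (hr_le_self u hu m hm) (by positivity)
  have h1 := tail_bd (f := fun m => hr u m / (m : ℝ) ^ a) zero_le_one ha hf (k := k) (by omega)
  have h2 := tail_split (f := fun m => hr u m / (m : ℝ) ^ a)
    (tail_sum (f := fun m => hr u m / (m : ℝ) ^ a) zero_le_one ha hf (le_refl 1)) (k := k)
    (by omega)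
  have h3 : tl (fun m => hr u m / (m : ℝ) ^ a) 1 = mz (a :: u) := by
    rw [mz, tl]
  have h4 : ∑ m ∈ Finset.Ico 1 k, hr u m / (m : ℝ) ^ a = dl (a :: u) := by
    unfold dl
    by_cases hu0 : u = []
    · subst hu0
      have hk2 : k = 2 := by rw [hk]; rfl
      rw [hk2, if_pos (by rfl)]
      rw [show Finset.Ico 1 2 = {1} from rfl, Finset.sum_singleton, hr_nil]
      simp
    · rw [if_neg (by
        rw [List.length_cons]
        have := List.length_pos_iff.2 hu0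
        omega)]
      refine Finset.sum_eq_zero fun j hj => ?_
      obtain ⟨h5, h6⟩ := Finset.mem_Ico.1 hj
      have := List.length_pos_iff.2 hu0
      rw [hr_zero u hu0 j (by omega), zero_div]
  rw [h3, h4] at h2
  have h5 : mz (a :: u) - dl (a :: u) = tl (fun m => hr u m / (m : ℝ) ^ a) k := by
    linarith only [h2]
  rw [h5]
  refine h1.trans (le_of_eq ?_)
  ring

/-- the word is finite at the scale `n` -/
def Fi (n K : ℕ) (w : List ℕ) : Prop := w.length ≤ K ∧ ∀ k ∈ w.head?, k ≤ K * n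

/-- the word is infinite at the scale `n` -/
def In (n K : ℕ) (w : List ℕ) : Prop := ∃ a u, w = a :: u ∧ (K * n < a ∨ K < w.length)

noncomputable instance (n K : ℕ) : DecidablePred (Fi n K) := fun _ => Classical.propDecidable _

lemma Fi_nil (n K : ℕ) : Fi n K [] := ⟨Nat.zero_le _, by simp⟩

lemma Fi_mono {n K K' : ℕ} (h : K ≤ K') {w : List ℕ} (hw : Fi n K w) : Fi n K' w :=
  ⟨hw.1.trans h, fun k hk => (hw.2 k hk).trans (Nat.mul_le_mul_right _ h)⟩

lemma In_mono {n K K' : ℕ} (h : K ≤ K') {w : List ℕ} (hw : In n K' w) : In n K w := by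
  obtain ⟨a, u, rfl, h1⟩ := hw
  refine ⟨a, u, rfl, ?_⟩
  rcases h1 with h1 | h1
  · exact Or.inl ((Nat.mul_le_mul_right _ h).trans_lt h1)
  · exact Or.inr (h.trans_lt h1)

lemma not_Fi {n K : ℕ} {w : List ℕ} (hw : ¬ Fi n K w) : In n K w := by
  cases w with
  | nil => exact absurd (Fi_nil n K) hw
  | cons a u =>
    refine ⟨a, u, rfl, ?_⟩
    by_contra h
    push Not at h
    exact hw ⟨h.2, fun k hk => by
      rw [List.head?_cons, Option.mem_some_iff] at hk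
      rw [← hk]
      exact h.1⟩

/-- the values of the infinite words -/
lemma mz_inf {n K : ℕ} (hn : 3 ≤ n) (hK : 2 ≤ K) {w : List ℕ} (hw : In n K w)
    (hw1 : ∀ m ∈ w, 1 ≤ m) (hw2 : ∀ k ∈ w.head?, n ≤ k) :
    |mz w - dl w| ≤ 8 * ze 2 * (K : ℝ) ^ 3 * ((K : ℝ) ^ n)⁻¹ := by
  obtain ⟨a, u, rfl, h1⟩ := hw
  have ha : n ≤ a := hw2 a (by simp)
  have hz : 0 ≤ ze 2 := tsum_nonneg fun m => by positivity
  have hK1 : (1 : ℝ) ≤ K := by exact_mod_cast (by omega : 1 ≤ K)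
  refine (mz_bd a u (fun m hm => hw1 m (List.mem_cons_of_mem _ hm)) (by omega) rfl).trans ?_
  set k : ℕ := max (u.length + 1) 2 with hk
  have hk2 : 2 ≤ k := le_max_right _ _
  have hk1 : (1 : ℝ) ≤ k := by exact_mod_cast (by omega : 1 ≤ k)
  obtain ⟨b, hb⟩ : ∃ b, a = 3 + b := ⟨a - 3, by omega⟩
  obtain ⟨m, hm⟩ : ∃ m, n = 3 + m := ⟨n - 3, by omega⟩
  have e1 : (k : ℝ) ^ 3 * ((k : ℝ) ^ a)⁻¹ = ((k : ℝ) ^ b)⁻¹ := by
    rw [hb, pow_add]
    field_simp
  have e2 : (K : ℝ) ^ 3 * ((K : ℝ) ^ n)⁻¹ = ((K : ℝ) ^ m)⁻¹ := by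
    rw [hm, pow_add]
    field_simp
  have h2 : ((k : ℝ) ^ b)⁻¹ ≤ 8 * ((K : ℝ) ^ m)⁻¹ := by
    rcases h1 with h1 | h1
    · have h3 : (K : ℝ) ^ m ≤ 8 * (k : ℝ) ^ b := by
        have h4 : K ^ n ≤ 2 ^ (K * n) := by
          rw [pow_mul]
          exact Nat.pow_le_pow_left (Nat.lt_two_pow_self).le _
        have h5 : K ^ m ≤ K ^ n := Nat.pow_le_pow_right (by omega) (by omega)
        have h6 : 2 ^ (K * n) ≤ 2 ^ (3 + b) := Nat.pow_le_pow_right (by omega) (by omega)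
        have h7 : 2 ^ (3 + b) = 8 * 2 ^ b := by rw [pow_add]; norm_num
        have h8 : 2 ^ b ≤ k ^ b := Nat.pow_le_pow_left hk2 _
        have h9 : K ^ m ≤ 8 * k ^ b := by
          calc K ^ m ≤ 2 ^ (K * n) := h5.trans h4
            _ ≤ 8 * 2 ^ b := by rw [← h7]; exact h6
            _ ≤ 8 * k ^ b := by omega
        exact_mod_cast h9
      have h10 : (0 : ℝ) < (K : ℝ) ^ m := by positivity
      have h11 : (0 : ℝ) < (k : ℝ) ^ b := by positivity
      rw [inv_le_iff_one_le_mul₀ h11]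
      calc (1 : ℝ) = (K : ℝ) ^ m * ((K : ℝ) ^ m)⁻¹ := (mul_inv_cancel₀ h10.ne').symm
        _ ≤ (8 * (k : ℝ) ^ b) * ((K : ℝ) ^ m)⁻¹ := by gcongr
        _ = 8 * ((K : ℝ) ^ m)⁻¹ * (k : ℝ) ^ b := by ring
    · have h3 : (K : ℝ) ≤ k := by
        have h4 : K ≤ k := by
          rw [List.length_cons] at h1
          omega
        exact_mod_cast h4
      have h4 : ((k : ℝ) ^ b)⁻¹ ≤ ((K : ℝ) ^ m)⁻¹ := by
        refine inv_anti₀ (by positivity) ?_
        calc (K : ℝ) ^ m ≤ (K : ℝ) ^ b := pow_le_pow_right₀ hK1 (by omega)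
          _ ≤ (k : ℝ) ^ b := pow_le_pow_left₀ (by linarith only [hK1]) h3 _
      have h5 : (0 : ℝ) ≤ ((K : ℝ) ^ m)⁻¹ := by positivity
      linarith only [h4, h5]
  calc ze 2 * (k : ℝ) ^ 3 * ((k : ℝ) ^ a)⁻¹ = ze 2 * ((k : ℝ) ^ b)⁻¹ := by rw [mul_assoc, e1]
    _ ≤ ze 2 * (8 * ((K : ℝ) ^ m)⁻¹) := mul_le_mul_of_nonneg_left h2 hz
    _ = 8 * ze 2 * (K : ℝ) ^ 3 * ((K : ℝ) ^ n)⁻¹ := by
        rw [mul_assoc (8 * ze 2), e2]
        ring

end Pool.Agent.Y777.AM
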