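import Pool.Agent.Y777.AM.A

/-!
# Multiple zeta values with incomparable first arguments and unbounded depths (helper777)
-/

set_option autoImplicit false

namespace Pool.Agent.Y777.AM

open Filter Topology Pool.Agent.Y760.ZG Pool.Agent.Y777.AL Pool.Agent.TH883.Zg

lemma ze2_pos : 0 ≤ ze 2 := tsum_nonneg fun m => by positivity

/-- choice of the second threshold -/
lemma thr (B E : ℝ) (hB : 1 < B) : ∃ K1 : ℕ, 2 ≤ K1 ∧ ∃ n0 : ℕ, 3 ≤ n0 ∧
    ∀ n : ℕ, n0 ≤ n → ∀ K : ℕ, K1 = K →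
      E * ((K : ℝ) ^ 3 * ((K : ℝ) ^ n)⁻¹) ≤ (B ^ n)⁻¹ / 2 := by
  obtain ⟨K1, hK1⟩ := exists_nat_ge (2 * B)
  have hK2 : (2 : ℝ) < K1 := by linarith only [hK1, hB]
  have hK2' : 2 < K1 := by exact_mod_cast hK2
  have ht : Tendsto (fun n : ℕ => (2 : ℝ) ^ n) atTop atTop :=
    tendsto_pow_atTop_atTop_of_one_lt one_lt_two
  obtain ⟨n1, hn1⟩ := (ht.eventually_ge_atTop (2 * (E * (K1 : ℝ) ^ 3))).exists_forall_of_atTop
  refine ⟨K1, by omega, max 3 n1, le_max_left _ _, ?_⟩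
  rintro n hn K rfl
  have h1 := hn1 n ((le_max_right _ _).trans hn)
  have hBn : (0 : ℝ) < B ^ n := by positivity
  have hKn : (0 : ℝ) < (K1 : ℝ) ^ n := by positivity
  have h2 : (2 * B) ^ n ≤ (K1 : ℝ) ^ n := pow_le_pow_left₀ (by positivity) hK1 _
  rw [mul_pow] at h2
  have h3 : 2 * (E * (K1 : ℝ) ^ 3) * B ^ n ≤ (K1 : ℝ) ^ n :=
    (mul_le_mul_of_nonneg_right h1 hBn.le).trans h2
  have h4 : E * ((K1 : ℝ) ^ 3 * ((K1 : ℝ) ^ n)⁻¹) =
      (2 * (E * (K1 : ℝ) ^ 3) * B ^ n) * ((K1 : ℝ) ^ n)⁻¹ * ((B ^ n)⁻¹ / 2) := by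
    field_simp
  rw [h4]
  have h5 : (2 * (E * (K1 : ℝ) ^ 3) * B ^ n) * ((K1 : ℝ) ^ n)⁻¹ ≤ 1 := by
    rw [← div_eq_mul_inv, div_le_one hKn]
    exact h3
  have h6 : 0 ≤ (B ^ n)⁻¹ / 2 := by positivity
  calc _ ≤ 1 * ((B ^ n)⁻¹ / 2) := mul_le_mul_of_nonneg_right h5 h6
    _ = _ := one_mul _

/-- the words of the theorem -/
def Wf (n : ℕ) (κ : ℝ) (w : List ℕ) : Prop :=
  (∀ m ∈ w, 1 ≤ m) ∧ ∀ k ∈ w.head?, n ≤ k ∧ ∀ m ∈ w, (m : ℝ) ≤ κ * k

/-- the size of the coefficients of the constant term -/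
lemma const_bd {l : ℕ} (S : Finset (List ℕ)) (N : ℕ) (hS : S.card ≤ N) (a : List ℕ → Fin l → ℤ)
    {C : ℝ} (hC : 1 ≤ C) {n : ℕ} (ha : ∀ w ∈ S, ∀ j, |(a w j : ℝ)| ≤ C ^ n)
    (c : List ℕ → ℤ) (hc : ∀ w, |(c w : ℝ)| ≤ 1) (j : Fin l) :
    |((∑ w ∈ S, c w * a w j : ℤ) : ℝ)| ≤ N * C ^ n := by
  push_cast
  refine (Finset.abs_sum_le_sum_abs _ _).trans ?_
  calc ∑ w ∈ S, |(c w : ℝ) * a w j| ≤ ∑ w ∈ S, C ^ n := by
        refine Finset.sum_le_sum fun w hw => ?_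
        rw [abs_mul]
        calc |(c w : ℝ)| * |(a w j : ℝ)| ≤ 1 * C ^ n :=
              mul_le_mul (hc w) (ha w hw j) (abs_nonneg _) zero_le_one
          _ = C ^ n := one_mul _
    _ = S.card * C ^ n := by rw [Finset.sum_const, nsmul_eq_mul]
    _ ≤ N * C ^ n := by
        have : (S.card : ℝ) ≤ N := by exact_mod_cast hS
        exact mul_le_mul_of_nonneg_right this (by positivity)

/-- one scale -/
theorem F1_step {l : ℕ} (β : Fin l → ℝ) (hβ : ∀ j, IsAlgebraic ℚ (β j))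
    (hli : LinearIndependent ℚ β) (N K : ℕ) (κ C : ℝ) (hC : 1 ≤ C) (hκ : 1 ≤ κ) :
    ∃ B : ℝ, 1 < B ∧ ∃ K1 n0 : ℕ, ∀ n : ℕ, n0 ≤ n → ∀ W : Finset (List ℕ), W.card ≤ N →
      (∀ w ∈ W, Wf n κ w) → (∀ w ∈ W, Fi n K w ∨ In n K1 w) → ∀ a : List ℕ → Fin l → ℤ,
      (∃ w ∈ W, w ≠ [] ∧ Fi n K w ∧ ∃ j, a w j ≠ 0) → (∀ w ∈ W, ∀ j, |(a w j : ℝ)| ≤ C ^ n) →
      (B ^ n)⁻¹ < |∑ w ∈ W, ∑ j, (β j * a w j) * mz w| := by
  classical
  obtain ⟨B, hB, n1, hmain⟩ := mainWa β hβ hli (N + 1) K (κ * K) ((N + 1) * C)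
  set b : ℝ := ∑ j, |β j| with hb
  have hb0 : 0 ≤ b := Finset.sum_nonneg fun j _ => abs_nonneg _
  obtain ⟨K1, hK1, n2, hn2, hthr⟩ := thr (B * C) (N * b * (8 * ze 2)) (by nlinarith only [hB, hC])
  refine ⟨2 * B, by linarith only [hB], K1, max (max n1 n2) 1, ?_⟩
  intro n hn W hWN hW hFI a ha haC
  have hn1 : n1 ≤ n := (le_max_left _ _).trans ((le_max_left _ _).trans hn)
  have hn2' : n2 ≤ n := (le_max_right _ _).trans ((le_max_left _ _).trans hn)
  have hn3 : 3 ≤ n := hn2.trans hn2'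
  have hBn : 0 < B ^ n := by positivity
  have hCn : 0 < C ^ n := by positivity
  -- the two parts
  set S1 : Finset (List ℕ) := W.filter (Fi n K) with hS1
  set S2 : Finset (List ℕ) := W.filter (fun w => ¬ Fi n K w) with hS2
  have hS2c : S2.card ≤ N := (Finset.card_filter_le _ _).trans hWN
  set bb : Fin l → ℤ := fun j => ∑ w ∈ S2, (if w.length = 1 then 1 else 0) * a w j with hbb
  set a' : List ℕ → Fin l → ℤ := fun w j =>
    (if w ∈ S1 then a w j else 0) + (if w = [] then bb j else 0) with ha'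
  set W' : Finset (List ℕ) := insert [] S1 with hW'
  have hW'c : W'.card ≤ N + 1 :=
    (Finset.card_insert_le _ _).trans (Nat.succ_le_succ ((Finset.card_filter_le _ _).trans hWN))
  have hadj : ∀ w ∈ W', w.length ≤ K ∧ Adj n (κ * K) w := by
    intro w hw
    rw [hW', Finset.mem_insert] at hw
    rcases hw with rfl | hw
    · exact ⟨Nat.zero_le _, by simp [Adj]⟩
    · obtain ⟨hwW, hwF⟩ := Finset.mem_filter.1 hw
      obtain ⟨h1, h2⟩ := hW w hwW
      refine ⟨hwF.1, fun m hm => ⟨h1 m hm, ?_⟩, fun k hk => (h2 k hk).1⟩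
      cases w with
      | nil => simp at hm
      | cons c u =>
        have h3 := (h2 c (by simp)).2 m hm
        have h4 : (c : ℝ) ≤ K * n := by exact_mod_cast hwF.2 c (by simp)
        calc (m : ℝ) ≤ κ * c := h3
          _ ≤ κ * (K * n) := mul_le_mul_of_nonneg_left h4 (by linarith only [hκ])
          _ = κ * K * n := by ring
  have hne : ∃ w ∈ W', ∃ j, a' w j ≠ 0 := by
    obtain ⟨w, hw, hwn, hwF, j, hj⟩ := ha
    have hwS : w ∈ S1 := Finset.mem_filter.2 ⟨hw, hwF⟩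
    refine ⟨w, Finset.mem_insert_of_mem hwS, j, ?_⟩
    rw [ha']
    simp only
    rw [if_pos hwS, if_neg hwn, add_zero]
    exact hj
  have hbbC : ∀ j, |(bb j : ℝ)| ≤ N * C ^ n := by
    intro j
    have h1 := const_bd S2 N hS2c a hC
      (fun w hw j => haC w (Finset.mem_filter.1 hw).1 j) (fun w => if w.length = 1 then 1 else 0)
      (fun w => by split_ifs <;> simp) j
    exact h1
  have ha'C : ∀ w ∈ W', ∀ j, |(a' w j : ℝ)| ≤ ((N + 1) * C) ^ n := by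
    intro w hw j
    have h1 : |((if w ∈ S1 then a w j else 0 : ℤ) : ℝ)| ≤ C ^ n := by
      split_ifs with h
      · exact haC w (Finset.mem_filter.1 h).1 j
      · simp only [Int.cast_zero, abs_zero]
        exact hCn.le
    have h2 : |((if w = [] then bb j else 0 : ℤ) : ℝ)| ≤ N * C ^ n := by
      split_ifs with h
      · exact hbbC j
      · simp only [Int.cast_zero, abs_zero]
        positivity
    have h3 : ((N : ℝ) + 1) ≤ ((N : ℝ) + 1) ^ n := by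
      calc ((N : ℝ) + 1) = ((N : ℝ) + 1) ^ 1 := (pow_one _).symm
        _ ≤ _ := pow_le_pow_right₀ (by have : (0 : ℝ) ≤ N := Nat.cast_nonneg _
                                       linarith only [this]) (by omega)
    rw [ha']
    simp only
    rw [Int.cast_add, mul_pow]
    calc |((if w ∈ S1 then a w j else 0 : ℤ) : ℝ) + ((if w = [] then bb j else 0 : ℤ) : ℝ)| ≤
        C ^ n + N * C ^ n := (abs_add_le _ _).trans (add_le_add h1 h2)
      _ = ((N : ℝ) + 1) * C ^ n := by ring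
      _ ≤ ((N : ℝ) + 1) ^ n * C ^ n := mul_le_mul_of_nonneg_right h3 hCn.le
  have h1 := hmain n hn1 W' hW'c hadj a' hne ha'C
  -- the decomposition
  set f : List ℕ → ℝ := fun w => ∑ j, (β j * a w j) * mz w with hf
  have e1 : ∑ w ∈ W, f w = ∑ w ∈ S1, f w + ∑ w ∈ S2, f w :=
    (Finset.sum_filter_add_sum_filter_not W (Fi n K) f).symm
  have e2 : ∑ w ∈ S2, f w = ∑ j, β j * bb j +
      ∑ w ∈ S2, ∑ j, (β j * a w j) * (mz w - dl w) := by
    have e3 : ∑ j, β j * bb j = ∑ w ∈ S2, ∑ j, (β j * a w j) * dl w := by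
      rw [Finset.sum_comm]
      refine Finset.sum_congr rfl fun j _ => ?_
      rw [hbb]
      simp only
      push_cast
      rw [Finset.mul_sum]
      refine Finset.sum_congr rfl fun w _ => ?_
      unfold dl
      split_ifs <;> ring
    rw [e3, ← Finset.sum_add_distrib]
    refine Finset.sum_congr rfl fun w _ => ?_
    rw [← Finset.sum_add_distrib]
    refine Finset.sum_congr rfl fun j _ => ?_
    ring
  have e4 : ∑ w ∈ W', ∑ j, (β j * a' w j) * mz w = ∑ w ∈ S1, f w + ∑ j, β j * bb j := by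
    have e5 : ∀ w, ∑ j, (β j * a' w j) * mz w =
        (if w ∈ S1 then f w else 0) + (if w = [] then ∑ j, β j * bb j else 0) := by
      intro w
      by_cases hw : w = []
      · subst hw
        have hmz : mz [] = 1 := by rw [mz]
        by_cases hw1 : ([] : List ℕ) ∈ S1
        · simp only [ha', hf, hw1, if_true, hmz, mul_one]
          rw [← Finset.sum_add_distrib]
          refine Finset.sum_congr rfl fun j _ => ?_
          push_cast
          ring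
        · simp only [ha', hw1, if_false, if_true, hmz, mul_one, zero_add]
      · by_cases hw1 : w ∈ S1
        · simp only [ha', hf, hw1, if_true, hw, if_false, add_zero]
        · simp only [ha', hw1, if_false, hw, add_zero, Int.cast_zero, mul_zero, zero_mul,
            Finset.sum_const_zero]
    rw [Finset.sum_congr rfl fun w _ => e5 w, Finset.sum_add_distrib]
    congr 1
    · rw [← Finset.sum_filter]
      refine Finset.sum_congr ?_ fun _ _ => rfl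
      ext w
      rw [Finset.mem_filter, hW', Finset.mem_insert]
      exact ⟨fun h => h.2, fun h => ⟨Or.inr h, h⟩⟩
    · rw [Finset.sum_ite_eq' W' ([] : List ℕ)]
      rw [if_pos (Finset.mem_insert_self _ _)]
  have e6 : ∑ w ∈ W, f w = ∑ w ∈ W', ∑ j, (β j * a' w j) * mz w +
      ∑ w ∈ S2, ∑ j, (β j * a w j) * (mz w - dl w) := by
    rw [e1, e2, e4]
    ring
  -- the error
  have herr : |∑ w ∈ S2, ∑ j, (β j * a w j) * (mz w - dl w)| ≤ (B ^ n)⁻¹ / 2 := by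
    have h3 : ∀ w ∈ S2, |∑ j, (β j * a w j) * (mz w - dl w)| ≤
        b * C ^ n * (8 * ze 2 * (K1 : ℝ) ^ 3 * ((K1 : ℝ) ^ n)⁻¹) := by
      intro w hw
      obtain ⟨hwW, hwF⟩ := Finset.mem_filter.1 hw
      have hIn : In n K1 w := (hFI w hwW).resolve_left hwF
      have h4 := mz_inf hn3 hK1 hIn (hW w hwW).1 (fun k hk => ((hW w hwW).2 k hk).1)
      refine (Finset.abs_sum_le_sum_abs _ _).trans ?_
      rw [hb, Finset.sum_mul, Finset.sum_mul]
      refine Finset.sum_le_sum fun j _ => ?_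
      rw [abs_mul, abs_mul]
      exact mul_le_mul (mul_le_mul_of_nonneg_left (haC w hwW j) (abs_nonneg _)) h4
        (abs_nonneg _) (by positivity)
    have h5 : |∑ w ∈ S2, ∑ j, (β j * a w j) * (mz w - dl w)| ≤
        N * (b * C ^ n * (8 * ze 2 * (K1 : ℝ) ^ 3 * ((K1 : ℝ) ^ n)⁻¹)) := by
      refine (Finset.abs_sum_le_sum_abs _ _).trans ((Finset.sum_le_sum h3).trans ?_)
      rw [Finset.sum_const, nsmul_eq_mul]
      have : (S2.card : ℝ) ≤ N := by exact_mod_cast hS2c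
      exact mul_le_mul_of_nonneg_right this (by have := ze2_pos; positivity)
    have h6 := hthr n hn2' K1 rfl
    rw [mul_pow, mul_inv] at h6
    calc _ ≤ N * (b * C ^ n * (8 * ze 2 * (K1 : ℝ) ^ 3 * ((K1 : ℝ) ^ n)⁻¹)) := h5
      _ = C ^ n * (N * b * (8 * ze 2) * ((K1 : ℝ) ^ 3 * ((K1 : ℝ) ^ n)⁻¹)) := by ring
      _ ≤ C ^ n * ((B ^ n)⁻¹ * (C ^ n)⁻¹ / 2) := mul_le_mul_of_nonneg_left h6 hCn.le
      _ = (B ^ n)⁻¹ / 2 := by field_simp
  have h7 : ((2 * B) ^ n)⁻¹ ≤ (B ^ n)⁻¹ / 2 := by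
    rw [mul_pow, mul_inv]
    have h8 : (2 : ℝ) ≤ 2 ^ n := by
      calc (2 : ℝ) = 2 ^ 1 := (pow_one _).symm
        _ ≤ 2 ^ n := pow_le_pow_right₀ one_le_two (by omega)
    have h9 : ((2 : ℝ) ^ n)⁻¹ ≤ 1 / 2 := by
      rw [one_div]
      exact inv_anti₀ two_pos h8
    calc ((2 : ℝ) ^ n)⁻¹ * (B ^ n)⁻¹ ≤ 1 / 2 * (B ^ n)⁻¹ :=
          mul_le_mul_of_nonneg_right h9 (by positivity)
      _ = _ := by ring
  have h10 : |∑ w ∈ W', ∑ j, (β j * a' w j) * mz w| ≤ |∑ w ∈ W, f w| +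
      |∑ w ∈ S2, ∑ j, (β j * a w j) * (mz w - dl w)| := by
    have h11 : ∑ w ∈ W', ∑ j, (β j * a' w j) * mz w = ∑ w ∈ W, f w -
      ∑ w ∈ S2, ∑ j, (β j * a w j) * (mz w - dl w) := by
      rw [e6]
      ring
    rw [h11]
    exact abs_sub _ _
  linarith only [h1, h7, h10, herr]

/-- **incomparable first arguments, unbounded depths** -/
theorem F1_ind {l : ℕ} (β : Fin l → ℝ) (hβ : ∀ j, IsAlgebraic ℚ (β j))
    (hli : LinearIndependent ℚ β) (N : ℕ) (κ C : ℝ) (hC : 1 ≤ C) (hκ : 1 ≤ κ) (M : ℕ) :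
    ∀ K : ℕ, ∃ B : ℝ, 1 < B ∧ ∃ n0 : ℕ, ∀ n : ℕ, n0 ≤ n → ∀ W : Finset (List ℕ), W.card ≤ N →
      (∀ w ∈ W, Wf n κ w) → (W.filter fun w => ¬ Fi n K w).card ≤ M → ∀ a : List ℕ → Fin l → ℤ,
      (∃ w ∈ W, w ≠ [] ∧ Fi n K w ∧ ∃ j, a w j ≠ 0) → (∀ w ∈ W, ∀ j, |(a w j : ℝ)| ≤ C ^ n) →
      (B ^ n)⁻¹ < |∑ w ∈ W, ∑ j, (β j * a w j) * mz w| := by
  classical
  induction M with
  | zero =>
    intro K
    obtain ⟨B, hB, K1, n0, h⟩ := F1_step β hβ hli N K κ C hC hκ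
    refine ⟨B, hB, n0, fun n hn W hWN hW hc a ha haC => h n hn W hWN hW ?_ a ha haC⟩
    intro w hw
    left
    by_contra hF
    have h1 : w ∈ W.filter fun w => ¬ Fi n K w := Finset.mem_filter.2 ⟨hw, hF⟩
    rw [Finset.card_eq_zero.1 (Nat.le_zero.1 hc)] at h1
    simp at h1
  | succ M ih =>
    intro K
    obtain ⟨B, hB, K1, n0, h⟩ := F1_step β hβ hli N K κ C hC hκ
    obtain ⟨B', hB', n0', h'⟩ := ih (max K K1)
    refine ⟨max B B', lt_max_of_lt_left hB, max n0 n0', ?_⟩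
    intro n hn W hWN hW hc a ha haC
    by_cases hall : ∀ w ∈ W, Fi n K w ∨ In n K1 w
    · refine lt_of_le_of_lt ?_ (h n ((le_max_left _ _).trans hn) W hWN hW hall a ha haC)
      refine inv_anti₀ (by positivity) ?_
      exact pow_le_pow_left₀ (by linarith only [hB]) (le_max_left _ _) _
    · push Not at hall
      obtain ⟨w1, hw1, hF1, hI1⟩ := hall
      have hF1' : Fi n (max K K1) w1 := by
        by_contra hcon
        exact hI1 (In_mono (le_max_right K K1) (not_Fi hcon))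
      refine lt_of_le_of_lt ?_ (h' n ((le_max_right _ _).trans hn) W hWN hW ?_ a ?_ haC)
      · refine inv_anti₀ (by positivity) ?_
        exact pow_le_pow_left₀ (by linarith only [hB']) (le_max_right _ _) _
      · have h2 : (W.filter fun w => ¬ Fi n (max K K1) w) ⊂ W.filter fun w => ¬ Fi n K w := by
          refine Finset.ssubset_iff_subset_ne.2 ⟨fun w hw => ?_, fun heq => ?_⟩
          · obtain ⟨h3, h4⟩ := Finset.mem_filter.1 hw
            exact Finset.mem_filter.2 ⟨h3, fun h5 => h4 (Fi_mono (le_max_left _ _) h5)⟩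
          · have h3 : w1 ∈ W.filter fun w => ¬ Fi n K w := Finset.mem_filter.2 ⟨hw1, hF1⟩
            rw [← heq] at h3
            exact (Finset.mem_filter.1 h3).2 hF1'
        have h3 := Finset.card_lt_card h2
        omega
      · obtain ⟨w, hw, hwn, hwF, hj⟩ := ha
        exact ⟨w, hw, hwn, Fi_mono (le_max_left _ _) hwF, hj⟩

/-- **the theorem for incomparable first arguments and unbounded depths** -/
theorem F1 {l : ℕ} (β : Fin l → ℝ) (hβ : ∀ j, IsAlgebraic ℚ (β j))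
    (hli : LinearIndependent ℚ β) (N K : ℕ) (κ C : ℝ) :
    ∃ B : ℝ, 1 < B ∧ ∃ n0 : ℕ, ∀ n : ℕ, n0 ≤ n → ∀ W : Finset (List ℕ), W.card ≤ N →
      (∀ w ∈ W, Wf n κ w) → ∀ a : List ℕ → Fin l → ℤ,
      (∃ w ∈ W, w ≠ [] ∧ Fi n K w ∧ ∃ j, a w j ≠ 0) → (∀ w ∈ W, ∀ j, |(a w j : ℝ)| ≤ C ^ n) →
      (B ^ n)⁻¹ < |∑ w ∈ W, ∑ j, (β j * a w j) * mz w| := by
  obtain ⟨B, hB, n0, h⟩ := F1_ind β hβ hli N (max κ 1) (max |C| 1) (le_max_right _ _)
    (le_max_right _ _) N K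
  refine ⟨B, hB, n0, fun n hn W hWN hW a ha haC => h n hn W hWN ?_
    ((Finset.card_filter_le _ _).trans hWN) a ha ?_⟩
  · intro w hw
    obtain ⟨h1, h2⟩ := hW w hw
    refine ⟨h1, fun k hk => ⟨(h2 k hk).1, fun m hm => ((h2 k hk).2 m hm).trans ?_⟩⟩
    exact mul_le_mul_of_nonneg_right (le_max_left _ _) (Nat.cast_nonneg _)
  · intro w hw j
    refine (haC w hw j).trans ((le_abs_self _).trans ?_)
    rw [abs_pow]
    exact pow_le_pow_left₀ (abs_nonneg _) (le_max_left _ _) _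

end Pool.Agent.Y777.AM
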