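import Pool.Agent.Y777.AM.B

/-!
# A very large last argument (helper777)
-/

set_option autoImplicit false

namespace Pool.Agent.Y777.AM

open Filter Topology Pool.Agent.Y760.ZG Pool.Agent.Y777.AL Pool.Agent.TH883.Zg

/-- truncated multiple sums over integers at least two -/
noncomputable def hq : List ℕ → ℕ → ℝ
  | [], _ => 1
  | a :: l, m => ∑ j ∈ Finset.Ico 2 m, hq l j / (j : ℝ) ^ a

lemma hq_nil (m : ℕ) : hq [] m = 1 := by rw [hq]
lemma hq_cons (a : ℕ) (l : List ℕ) (m : ℕ) :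
    hq (a :: l) m = ∑ j ∈ Finset.Ico 2 m, hq l j / (j : ℝ) ^ a := by rw [hq]

lemma hq_nonneg (l : List ℕ) : ∀ m, 0 ≤ hq l m := by
  induction l with
  | nil => intro m; rw [hq_nil]; exact zero_le_one
  | cons a l ih =>
    intro m
    rw [hq_cons]
    exact Finset.sum_nonneg fun j _ => div_nonneg (ih j) (by positivity)

lemma hq_le_hr (l : List ℕ) : ∀ m, hq l m ≤ hr l m := by
  induction l with
  | nil => intro m; rw [hq_nil, hr_nil]
  | cons a l ih =>
    intro m
    rw [hq_cons, hr_cons]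
    calc ∑ j ∈ Finset.Ico 2 m, hq l j / (j : ℝ) ^ a ≤
        ∑ j ∈ Finset.Ico 2 m, hr l j / (j : ℝ) ^ a :=
          Finset.sum_le_sum fun j _ => div_le_div_of_nonneg_right (ih j) (by positivity)
      _ ≤ ∑ j ∈ Finset.Ico 1 m, hr l j / (j : ℝ) ^ a :=
          Finset.sum_le_sum_of_subset_of_nonneg
            (Finset.Ico_subset_Ico_left (by omega))
            fun j _ _ => div_nonneg (hr_nonneg _ _) (by positivity)

lemma hq_snoc (l : List ℕ) (a : ℕ) : ∀ m, 2 ≤ m → hr (l ++ [a]) m = hq (l ++ [a]) m + hq l m := by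
  induction l with
  | nil =>
    intro m hm
    rw [List.nil_append, hr_cons, hq_cons, hq_nil, Finset.sum_eq_sum_Ico_succ_bot (by omega)]
    simp only [hr_nil, hq_nil, Nat.cast_one, one_pow, div_one]
    rw [add_comm]
  | cons b l ih =>
    intro m hm
    rw [List.cons_append, hr_cons, hq_cons, hq_cons, Finset.sum_eq_sum_Ico_succ_bot (by omega),
      hr_zero _ (by simp) 1 (by rw [List.length_append, List.length_singleton]; omega),
      zero_div, zero_add, ← Finset.sum_add_distrib]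
    refine Finset.sum_congr rfl fun j hj => ?_
    rw [ih j (Finset.mem_Ico.1 hj).1, add_div]

/-- the multiple sum over integers at least two -/
noncomputable def mq : List ℕ → ℝ
  | [] => 1
  | a :: l => ∑' k : ℕ, hq l (k + 2) / ((k + 2 : ℕ) : ℝ) ^ a

lemma summ_r (a : ℕ) (u : List ℕ) (hu : ∀ m ∈ u, 1 ≤ m) (ha : 3 ≤ a) {k : ℕ} (hk : 1 ≤ k) :
    Summable fun m : ℕ => hr u (m + k) / ((m + k : ℕ) : ℝ) ^ a := by
  have hf : ∀ m : ℕ, 1 ≤ m → |hr u m / (m : ℝ) ^ a| ≤ 1 * (m : ℝ) ^ 1 * ((m : ℝ) ^ a)⁻¹ := by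
    intro m hm
    rw [abs_of_nonneg (div_nonneg (hr_nonneg _ _) (by positivity)), one_mul, pow_one,
      div_eq_mul_inv]
    exact mul_le_mul_of_nonneg_right (hr_le_self u hu m hm) (by positivity)
  exact tail_sum (f := fun m => hr u m / (m : ℝ) ^ a) zero_le_one ha hf hk

lemma summ_q (a : ℕ) (u : List ℕ) (hu : ∀ m ∈ u, 1 ≤ m) (ha : 3 ≤ a) :
    Summable fun m : ℕ => hq u (m + 2) / ((m + 2 : ℕ) : ℝ) ^ a :=
  Summable.of_nonneg_of_le (fun m => div_nonneg (hq_nonneg _ _) (by positivity))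
    (fun m => div_le_div_of_nonneg_right (hq_le_hr u _) (by positivity))
    (summ_r a u hu ha (by omega : 1 ≤ 2))

lemma mq_nonneg (w : List ℕ) : 0 ≤ mq w := by
  cases w with
  | nil => rw [mq]; exact zero_le_one
  | cons a u =>
    rw [mq]
    exact tsum_nonneg fun k => div_nonneg (hq_nonneg _ _) (by positivity)

lemma mz_nonneg (w : List ℕ) : 0 ≤ mz w := by
  cases w with
  | nil => rw [mz]; exact zero_le_one
  | cons a u =>
    rw [mz]
    exact tsum_nonneg fun k => div_nonneg (hr_nonneg _ _) (by positivity)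

lemma mz_split (a : ℕ) (u : List ℕ) (hu : ∀ m ∈ u, 1 ≤ m) (ha : 3 ≤ a) :
    mz (a :: u) = hr u 1 + ∑' k : ℕ, hr u (k + 2) / ((k + 2 : ℕ) : ℝ) ^ a := by
  rw [mz, (summ_r a u hu ha (le_refl 1)).tsum_eq_zero_add]
  congr 1
  · simp

/-- **the last letter** -/
lemma mq_snoc (v : List ℕ) (hv : ∀ m ∈ v, 1 ≤ m) (hv3 : ∀ k ∈ v.head?, 3 ≤ k) (t : ℕ)
    (ht : 1 ≤ t) (hvt : v = [] → 3 ≤ t) : mz (v ++ [t]) = mq (v ++ [t]) + mq v := by
  cases v with
  | nil =>
    have ht3 := hvt rfl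
    rw [List.nil_append, mz_split t [] (by simp) ht3, hr_nil, mq, mq, add_comm]
    congr 1
  | cons a u =>
    have ha : 3 ≤ a := hv3 a (by simp)
    have hu : ∀ m ∈ u, 1 ≤ m := fun m hm => hv m (List.mem_cons_of_mem _ hm)
    have hut : ∀ m ∈ u ++ [t], 1 ≤ m := by
      intro m hm
      rw [List.mem_append, List.mem_singleton] at hm
      rcases hm with hm | rfl
      · exact hu m hm
      · exact ht
    rw [List.cons_append, mz_split a (u ++ [t]) hut ha, mq, mq,
      hr_zero _ (by simp) 1 (by rw [List.length_append, List.length_singleton]; omega), zero_add,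
      ← (summ_q a (u ++ [t]) hut ha).tsum_add (summ_q a u hu ha)]
    refine tsum_congr fun k => ?_
    rw [hq_snoc u t (k + 2) (by omega), add_div]

lemma hq_last (l : List ℕ) (t : ℕ) (ht : 1 ≤ t) :
    ∀ m, hq (l ++ [t]) m ≤ ((2 : ℝ) ^ (t - 1))⁻¹ * hq (l ++ [1]) m := by
  induction l with
  | nil =>
    intro m
    rw [List.nil_append, List.nil_append, hq_cons, hq_cons, Finset.mul_sum]
    refine Finset.sum_le_sum fun j hj => ?_
    have h2 : (2 : ℝ) ≤ j := by exact_mod_cast (Finset.mem_Ico.1 hj).1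
    obtain ⟨b, rfl⟩ : ∃ b, t = b + 1 := ⟨t - 1, by omega⟩
    rw [hq_nil, pow_one, Nat.add_sub_cancel]
    have h3 : (2 : ℝ) ^ b ≤ (j : ℝ) ^ b := pow_le_pow_left₀ two_pos.le h2 _
    have h4 : (0 : ℝ) < (2 : ℝ) ^ b := by positivity
    have hj0 : (0 : ℝ) < j := by linarith only [h2]
    have h5 : ((j : ℝ) ^ b)⁻¹ ≤ ((2 : ℝ) ^ b)⁻¹ := inv_anti₀ h4 h3
    calc 1 / (j : ℝ) ^ (b + 1) = ((j : ℝ) ^ b)⁻¹ * (1 / (j : ℝ)) := by
          rw [pow_succ]
          field_simp
      _ ≤ ((2 : ℝ) ^ b)⁻¹ * (1 / (j : ℝ)) := mul_le_mul_of_nonneg_right h5 (by positivity)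
  | cons a l ih =>
    intro m
    rw [List.cons_append, List.cons_append, hq_cons, hq_cons, Finset.mul_sum]
    refine Finset.sum_le_sum fun j _ => ?_
    rw [← mul_div_assoc]
    exact div_le_div_of_nonneg_right (ih j) (by positivity)

lemma mq_last (a : ℕ) (u : List ℕ) (hu : ∀ m ∈ u, 1 ≤ m) (ha : 3 ≤ a) (t : ℕ) (ht : 1 ≤ t) :
    mq (a :: (u ++ [t])) ≤ ((2 : ℝ) ^ (t - 1))⁻¹ * (1 + ze 2) := by
  have hu1 : ∀ b : ℕ, 1 ≤ b → ∀ m ∈ u ++ [b], 1 ≤ m := by
    intro b hb m hm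
    rw [List.mem_append, List.mem_singleton] at hm
    rcases hm with hm | rfl
    · exact hu m hm
    · exact hb
  have h1 : mq (a :: (u ++ [t])) ≤ ((2 : ℝ) ^ (t - 1))⁻¹ * mq (a :: (u ++ [1])) := by
    rw [mq, mq, ← tsum_mul_left]
    refine (summ_q a _ (hu1 t ht) ha).tsum_le_tsum (fun k => ?_)
      ((summ_q a _ (hu1 1 le_rfl) ha).mul_left _)
    rw [← mul_div_assoc]
    exact div_le_div_of_nonneg_right (hq_last u t ht _) (by positivity)
  have h2 : mq (a :: (u ++ [1])) ≤ mz (a :: (u ++ [1])) := by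
    rw [mq, mz_split a _ (hu1 1 le_rfl) ha]
    have h3 := hr_nonneg (u ++ [1]) 1
    have h4 : ∑' k : ℕ, hq (u ++ [1]) (k + 2) / ((k + 2 : ℕ) : ℝ) ^ a ≤
        ∑' k : ℕ, hr (u ++ [1]) (k + 2) / ((k + 2 : ℕ) : ℝ) ^ a :=
      (summ_q a _ (hu1 1 le_rfl) ha).tsum_le_tsum (fun k => div_le_div_of_nonneg_right
        (hq_le_hr _ _) (by positivity)) (summ_r a _ (hu1 1 le_rfl) ha (by omega : 1 ≤ 2))
    linarith only [h3, h4]
  have h3 : mz (a :: (u ++ [1])) ≤ 1 + ze 2 := by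
    have h4 := mz_bd a (u ++ [1]) (hu1 1 le_rfl) ha rfl
    set k : ℕ := max ((u ++ [1]).length + 1) 2 with hk
    have hk1 : (1 : ℝ) ≤ k := by exact_mod_cast (by omega : 1 ≤ k)
    have h5 : (k : ℝ) ^ 3 * ((k : ℝ) ^ a)⁻¹ ≤ 1 := by
      rw [← div_eq_mul_inv, div_le_one (by positivity)]
      exact pow_le_pow_right₀ hk1 ha
    have h6 : dl (a :: (u ++ [1])) ≤ 1 := by
      unfold dl
      split_ifs <;> norm_num
    have h7 := (abs_le.1 h4).2
    have h8 : ze 2 * (k : ℝ) ^ 3 * ((k : ℝ) ^ a)⁻¹ ≤ ze 2 := by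
      rw [mul_assoc]
      exact mul_le_of_le_one_right ze2_pos h5
    linarith only [h6, h7, h8]
  have h4 : (0 : ℝ) ≤ ((2 : ℝ) ^ (t - 1))⁻¹ := by positivity
  exact h1.trans (mul_le_mul_of_nonneg_left (h2.trans h3) h4)

/-- the sum over the prefixes -/
lemma mq_eq (v : List ℕ) : (∀ m ∈ v, 1 ≤ m) → (∀ k ∈ v.head?, 3 ≤ k) →
    mq v = ∑ i ∈ Finset.range (v.length + 1), (-1 : ℝ) ^ (v.length - i) * mz (v.take i) := by
  induction v using List.reverseRecOn with
  | nil =>
    intro _ _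
    simp [mq, mz]
  | append_singleton v t ih =>
    intro h1 h2
    have h1' : ∀ m ∈ v, 1 ≤ m := fun m hm => h1 m (List.mem_append_left _ hm)
    have ht : 1 ≤ t := h1 t (by simp)
    have h2' : ∀ k ∈ v.head?, 3 ≤ k := by
      intro k hk
      refine h2 k ?_
      cases v with
      | nil => simp at hk
      | cons a u => simpa using hk
    have hvt : v = [] → 3 ≤ t := by
      rintro rfl
      exact h2 t (by simp)
    have h3 := mq_snoc v h1' h2' t ht hvt
    have h4 : mq (v ++ [t]) = mz (v ++ [t]) - mq v := by linarith only [h3]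
    rw [h4, ih h1' h2', List.length_append, List.length_singleton, Finset.sum_range_succ _
      (v.length + 1), Nat.sub_self, pow_zero, one_mul]
    have h5 : (v ++ [t]).take (v.length + 1) = v ++ [t] :=
      List.take_of_length_le (by rw [List.length_append, List.length_singleton])
    rw [h5]
    have h6 : ∑ i ∈ Finset.range (v.length + 1),
        (-1 : ℝ) ^ (v.length + 1 - i) * mz ((v ++ [t]).take i) =
        - ∑ i ∈ Finset.range (v.length + 1), (-1 : ℝ) ^ (v.length - i) * mz (v.take i) := by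
      rw [← Finset.sum_neg_distrib]
      refine Finset.sum_congr rfl fun i hi => ?_
      have h7 := Finset.mem_range.1 hi
      rw [List.take_append_of_le_length (by omega),
        show v.length + 1 - i = (v.length - i) + 1 by omega, pow_succ]
      ring
    rw [h6]
    ring

end Pool.Agent.Y777.AM
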