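import Pool.Agent.Y777.AM.C

/-!
# Multiple zeta values of the same weight (helper777)
-/

set_option autoImplicit false

namespace Pool.Agent.Y777.AM

open Filter Topology Pool.Agent.Y760.ZG Pool.Agent.Y777.AL Pool.Agent.TH883.Zg

/-- the words of the theorem for the same weight: the last argument is free -/
def Wg (n : ℕ) (κ : ℝ) (w : List ℕ) : Prop :=
  w ≠ [] ∧ (∀ m ∈ w, 1 ≤ m) ∧ ∀ k ∈ w.head?, n ≤ k ∧ ∀ m ∈ w.dropLast, (m : ℝ) ≤ κ * k

lemma mq_dropLast {w : List ℕ} (hw0 : w ≠ []) (h1 : ∀ m ∈ w, 1 ≤ m)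
    (h3 : ∀ k ∈ w.head?, 3 ≤ k) : mq w.dropLast =
      ∑ i ∈ Finset.range w.length, (-1 : ℝ) ^ (w.length - 1 - i) * mz (w.take i) := by
  have hl := List.length_pos_iff.2 hw0
  rw [mq_eq w.dropLast (fun m hm => h1 m (List.mem_of_mem_dropLast hm)) (fun k hk => h3 k (by
    cases w with
    | nil => exact absurd rfl hw0
    | cons a u =>
      cases u with
      | nil => simp at hk
      | cons b u => simpa using hk)), List.length_dropLast,
    show w.length - 1 + 1 = w.length by omega]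
  refine Finset.sum_congr rfl fun i hi => ?_
  have h2 := Finset.mem_range.1 hi
  congr 2
  rw [List.dropLast_eq_take, List.take_take, min_eq_left (by omega)]

lemma sum_le_of (w : List ℕ) (m : ℕ) (h : ∀ x ∈ w, x ≤ m) : w.sum ≤ w.length * m := by
  have := List.sum_le_card_nsmul w m h
  rwa [smul_eq_mul] at this

/-- the value of a finite word with a very large last argument -/
lemma mz_last {n K : ℕ} (hn : 3 ≤ n) (hK : 2 ≤ K) {w : List ℕ} (hw0 : w ≠ [])
    (h1 : ∀ m ∈ w, 1 ≤ m) (h2 : ∀ k ∈ w.head?, n ≤ k) (hv : w.dropLast ≠ [])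
    (ht : K * n < w.getLast hw0) :
    |mz w - mq w.dropLast| ≤ 2 * (1 + ze 2) * (K : ℝ) ^ 3 * ((K : ℝ) ^ n)⁻¹ := by
  have hw : w.dropLast ++ [w.getLast hw0] = w := List.dropLast_append_getLast hw0
  obtain ⟨v, hvd⟩ : ∃ v, w.dropLast = v := ⟨_, rfl⟩
  obtain ⟨t, htd⟩ : ∃ t, w.getLast hw0 = t := ⟨_, rfl⟩
  rw [hvd, htd] at hw
  rw [htd] at ht
  rw [hvd] at hv ⊢
  subst hw
  cases v with
  | nil => exact absurd rfl hv
  | cons a u =>
    have ha : n ≤ a := h2 a (by simp)
    have hu : ∀ m ∈ u, 1 ≤ m := fun m hm => h1 m (by simp [hm])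
    have h3 := mq_snoc (a :: u) (fun m hm => h1 m (List.mem_append_left _ hm))
      (fun k hk => by
        rw [List.head?_cons, Option.mem_some_iff] at hk
        omega) t (by omega) (fun h => by simp at h)
    have h4 := mq_last a u hu (by omega) t (by omega)
    have h5 := mq_nonneg (a :: (u ++ [t]))
    rw [List.cons_append] at h3 ⊢
    have h6 : mz (a :: (u ++ [t])) - mq (a :: u) = mq (a :: (u ++ [t])) := by linarith only [h3]
    rw [h6, abs_of_nonneg h5]
    refine h4.trans ?_
    have hKr : (1 : ℝ) ≤ K := by exact_mod_cast (by omega : 1 ≤ K)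
    have h7 : ((2 : ℝ) ^ (t - 1))⁻¹ ≤ 2 * ((K : ℝ) ^ 3 * ((K : ℝ) ^ n)⁻¹) := by
      have h8 : K ^ n ≤ 2 * 2 ^ (t - 1) := by
        calc K ^ n ≤ (2 ^ K) ^ n := Nat.pow_le_pow_left (Nat.lt_two_pow_self).le _
          _ = 2 ^ (K * n) := by rw [pow_mul]
          _ ≤ 2 ^ (t - 1 + 1) := Nat.pow_le_pow_right (by omega) (by omega)
          _ = 2 * 2 ^ (t - 1) := by rw [pow_succ, mul_comm]
      have h9 : (K : ℝ) ^ n ≤ 2 * 2 ^ (t - 1) := by exact_mod_cast h8
      have h10 : (0 : ℝ) < (2 : ℝ) ^ (t - 1) := by positivity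
      have h11 : (0 : ℝ) < (K : ℝ) ^ n := by positivity
      rw [inv_le_iff_one_le_mul₀ h10]
      have h12 : (1 : ℝ) ≤ (K : ℝ) ^ 3 := one_le_pow₀ hKr
      calc (1 : ℝ) = (K : ℝ) ^ n * ((K : ℝ) ^ n)⁻¹ := (mul_inv_cancel₀ h11.ne').symm
        _ ≤ (2 * 2 ^ (t - 1)) * ((K : ℝ) ^ n)⁻¹ := by gcongr
        _ ≤ (2 * 2 ^ (t - 1)) * ((K : ℝ) ^ 3 * ((K : ℝ) ^ n)⁻¹) := by
            refine mul_le_mul_of_nonneg_left ?_ (by positivity)
            exact le_mul_of_one_le_left (by positivity) h12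
        _ = _ := by ring
    have h13 : 0 ≤ 1 + ze 2 := by
      have := ze2_pos
      linarith only [this]
    calc ((2 : ℝ) ^ (t - 1))⁻¹ * (1 + ze 2) ≤
        (2 * ((K : ℝ) ^ 3 * ((K : ℝ) ^ n)⁻¹)) * (1 + ze 2) :=
          mul_le_mul_of_nonneg_right h7 h13
      _ = _ := by ring

/-- one scale, the weight is large -/
theorem G_step {l : ℕ} (β : Fin l → ℝ) (hβ : ∀ j, IsAlgebraic ℚ (β j))
    (hli : LinearIndependent ℚ β) (N K : ℕ) (κ C : ℝ) (hC : 1 ≤ C) (hκ : 1 ≤ κ) :
    ∃ B : ℝ, 1 < B ∧ ∃ K1 K2 n0 : ℕ, ∀ n : ℕ, n0 ≤ n → ∀ k : ℕ, K2 * n < k →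
      ∀ W : Finset (List ℕ), W.card ≤ N → (∀ w ∈ W, Wg n κ w ∧ w.sum = k) →
      (∀ w ∈ W, Fi n K w ∨ In n K1 w) → ∀ a : List ℕ → Fin l → ℤ,
      (∃ w ∈ W, Fi n K w ∧ ∃ j, a w j ≠ 0) → (∀ w ∈ W, ∀ j, |(a w j : ℝ)| ≤ C ^ n) →
      (B ^ n)⁻¹ < |∑ w ∈ W, ∑ j, (β j * a w j) * mz w| := by
  classical
  set Q : ℕ := ⌈κ⌉₊ with hQ
  have hQ1 : 1 ≤ Q := Nat.one_le_ceil_iff.2 (by linarith only [hκ])
  obtain ⟨B, hB, n1, hmain⟩ := mainWa β hβ hli (N * K + 1) K (Q * K) ((N * K + N + 1) * C)
  set b : ℝ := ∑ j, |β j| with hb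
  have hb0 : 0 ≤ b := Finset.sum_nonneg fun j _ => abs_nonneg _
  set E : ℝ := 8 * ze 2 + 2 * (1 + ze 2) with hE
  obtain ⟨K1, hK1, n2, hn2, hthr⟩ := thr (B * C) (N * b * E) (by nlinarith only [hB, hC])
  refine ⟨2 * B, by linarith only [hB], K1, K * (Q * K) + K1 + K, max (max n1 n2) 1, ?_⟩
  intro n hn k hk W hWN hW hFI a ha haC
  have hn1 : n1 ≤ n := (le_max_left _ _).trans ((le_max_left _ _).trans hn)
  have hn2' : n2 ≤ n := (le_max_right _ _).trans ((le_max_left _ _).trans hn)
  have hn3 : 3 ≤ n := hn2.trans hn2'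
  have hBn : 0 < B ^ n := by positivity
  have hCn : 0 < C ^ n := by positivity
  set S1 : Finset (List ℕ) := W.filter (Fi n K) with hS1
  set S2 : Finset (List ℕ) := W.filter (fun w => ¬ Fi n K w) with hS2
  have hS1c : S1.card ≤ N := (Finset.card_filter_le _ _).trans hWN
  have hS2c : S2.card ≤ N := (Finset.card_filter_le _ _).trans hWN
  -- the finite words
  have hdrop : ∀ w ∈ S1, ∀ m ∈ w.dropLast, m ≤ Q * K * n := by
    intro w hw m hm
    obtain ⟨hwW, hwF⟩ := Finset.mem_filter.1 hw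
    obtain ⟨⟨h0, h1, h2⟩, h3⟩ := hW w hwW
    cases w with
    | nil => exact absurd rfl h0
    | cons c u =>
      have h4 := (h2 c (by simp)).2 m hm
      have h5 : (c : ℝ) ≤ K * n := by exact_mod_cast hwF.2 c (by simp)
      have h6 : κ ≤ Q := Nat.le_ceil κ
      have h7 : (m : ℝ) ≤ Q * (K * n) := h4.trans (mul_le_mul h6 h5 (Nat.cast_nonneg _)
        (Nat.cast_nonneg _))
      have h8 : m ≤ Q * (K * n) := by exact_mod_cast h7
      rwa [← mul_assoc] at h8
  have hfin : ∀ w ∈ S1, ∃ hw0 : w ≠ [], w.dropLast ≠ [] ∧ K1 * n < w.getLast hw0 := by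
    intro w hw
    obtain ⟨hwW, hwF⟩ := Finset.mem_filter.1 hw
    obtain ⟨⟨h0, h1, h2⟩, h3⟩ := hW w hwW
    have h4 : w.dropLast.sum ≤ K * (Q * K * n) := by
      refine (sum_le_of _ _ (hdrop w hw)).trans (Nat.mul_le_mul_right _ ?_)
      rw [List.length_dropLast]
      have := hwF.1
      omega
    have h5 : w.dropLast.sum + w.getLast h0 = k := by
      rw [← h3]
      conv_rhs => rw [← List.dropLast_append_getLast h0]
      rw [List.sum_append, List.sum_singleton]
    have h6 : K * (Q * K) * n + K1 * n + K * n < k := by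
      calc K * (Q * K) * n + K1 * n + K * n = (K * (Q * K) + K1 + K) * n := by ring
        _ < k := hk
    have h7 : K * (Q * K * n) = K * (Q * K) * n := by ring
    refine ⟨h0, ?_, by omega⟩
    intro hv
    have h8 : w.getLast h0 ≤ K * n := by
      have h9 : w = [w.getLast h0] := by
        conv_lhs => rw [← List.dropLast_append_getLast h0]
        rw [hv, List.nil_append]
      refine hwF.2 _ ?_
      have h10 : ∀ x, w = [x] → x ∈ w.head? := by
        rintro x rfl
        simp
      exact h10 _ h9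
    rw [hv, List.sum_nil] at h5
    omega
  set bb : Fin l → ℤ := fun j => ∑ w ∈ S2, (if w.length = 1 then 1 else 0) * a w j with hbb
  set cc : List ℕ → List ℕ → Fin l → ℤ := fun u w j =>
    ∑ i ∈ Finset.range w.length, (if w.take i = u then (-1) ^ (w.length - 1 - i) * a w j else 0)
    with hcc
  set a' : List ℕ → Fin l → ℤ := fun u j =>
    (∑ w ∈ S1, cc u w j) + (if u = [] then bb j else 0) with ha'
  set P : Finset (List ℕ) := insert [] (S1.biUnion fun w =>
    (Finset.range w.length).image fun i => w.take i) with hP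
  have hPc : P.card ≤ N * K + 1 := by
    refine (Finset.card_insert_le _ _).trans (Nat.succ_le_succ ?_)
    refine Finset.card_biUnion_le.trans ?_
    calc ∑ w ∈ S1, ((Finset.range w.length).image fun i => w.take i).card ≤ ∑ w ∈ S1, K := by
          refine Finset.sum_le_sum fun w hw => ?_
          refine Finset.card_image_le.trans ?_
          rw [Finset.card_range]
          exact (Finset.mem_filter.1 hw).2.1
      _ = S1.card * K := by rw [Finset.sum_const, smul_eq_mul]
      _ ≤ N * K := Nat.mul_le_mul_right _ hS1c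
  have htake : ∀ w ∈ S1, ∀ i, i < w.length → w.take i ∈ P := fun w hw i hi =>
    Finset.mem_insert_of_mem (Finset.mem_biUnion.2 ⟨w, hw, Finset.mem_image_of_mem _
      (Finset.mem_range.2 hi)⟩)
  have hadj : ∀ u ∈ P, u.length ≤ K ∧ Adj n (Q * K) u := by
    intro u hu
    rw [hP, Finset.mem_insert] at hu
    rcases hu with rfl | hu
    · exact ⟨Nat.zero_le _, by simp [Adj]⟩
    · obtain ⟨w, hw, hu'⟩ := Finset.mem_biUnion.1 hu
      obtain ⟨i, hi, rfl⟩ := Finset.mem_image.1 hu'
      rw [Finset.mem_range] at hi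
      obtain ⟨hwW, hwF⟩ := Finset.mem_filter.1 hw
      obtain ⟨⟨h0, h1, h2⟩, h3⟩ := hW w hwW
      have e1 : w.take i = w.dropLast.take i := by
        rw [List.dropLast_eq_take, List.take_take, min_eq_left (by omega)]
      refine ⟨?_, fun m hm => ?_, fun k' hk' => ?_⟩
      · rw [List.length_take]
        have := hwF.1
        omega
      · refine ⟨h1 m (List.mem_of_mem_take hm), ?_⟩
        rw [e1] at hm
        have h4 := hdrop w hw m (List.mem_of_mem_take hm)
        exact_mod_cast h4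
      · cases w with
        | nil => exact absurd rfl h0
        | cons c u =>
          cases i with
          | zero => simp at hk'
          | succ i =>
            refine (h2 k' ?_).1
            simpa using hk'
  have hbbC : ∀ j, |(bb j : ℝ)| ≤ N * C ^ n := fun j =>
    const_bd S2 N hS2c a hC (fun w hw j => haC w (Finset.mem_filter.1 hw).1 j)
      (fun w => if w.length = 1 then 1 else 0) (fun w => by split_ifs <;> simp) j
  have hccC : ∀ u, ∀ w ∈ S1, ∀ j, |(cc u w j : ℝ)| ≤ K * C ^ n := by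
    intro u w hw j
    obtain ⟨hwW, hwF⟩ := Finset.mem_filter.1 hw
    rw [hcc]
    simp only
    rw [Int.cast_sum]
    refine (Finset.abs_sum_le_sum_abs _ _).trans ?_
    calc ∑ i ∈ Finset.range w.length,
        |((if w.take i = u then (-1) ^ (w.length - 1 - i) * a w j else 0 : ℤ) : ℝ)| ≤
        ∑ i ∈ Finset.range w.length, C ^ n := by
          refine Finset.sum_le_sum fun i _ => ?_
          split_ifs
          · rw [Int.cast_mul, abs_mul, Int.cast_pow, Int.cast_neg, Int.cast_one, abs_pow, abs_neg,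
              abs_one, one_pow, one_mul]
            exact haC w hwW j
          · rw [Int.cast_zero, abs_zero]
            exact hCn.le
      _ = w.length * C ^ n := by rw [Finset.sum_const, Finset.card_range, nsmul_eq_mul]
      _ ≤ K * C ^ n := by
          have : (w.length : ℝ) ≤ K := by exact_mod_cast hwF.1
          exact mul_le_mul_of_nonneg_right this hCn.le
  have ha'C : ∀ u ∈ P, ∀ j, |(a' u j : ℝ)| ≤ ((N * K + N + 1) * C) ^ n := by
    intro u _ j
    have hN0 : (0 : ℝ) ≤ N := Nat.cast_nonneg _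
    have hK0 : (0 : ℝ) ≤ K := Nat.cast_nonneg _
    have h1 : |((∑ w ∈ S1, cc u w j : ℤ) : ℝ)| ≤ N * K * C ^ n := by
      rw [Int.cast_sum]
      refine (Finset.abs_sum_le_sum_abs _ _).trans
        ((Finset.sum_le_sum fun w hw => hccC u w hw j).trans ?_)
      rw [Finset.sum_const, nsmul_eq_mul, mul_assoc]
      have : (S1.card : ℝ) ≤ N := by exact_mod_cast hS1c
      exact mul_le_mul_of_nonneg_right this (by positivity)
    have h2 : |((if u = [] then bb j else 0 : ℤ) : ℝ)| ≤ N * C ^ n := by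
      split_ifs with h
      · exact hbbC j
      · rw [Int.cast_zero, abs_zero]
        positivity
    have h3 : ((N : ℝ) * K + N + 1) ≤ ((N : ℝ) * K + N + 1) ^ n := by
      calc ((N : ℝ) * K + N + 1) = ((N : ℝ) * K + N + 1) ^ 1 := (pow_one _).symm
        _ ≤ _ := pow_le_pow_right₀ (by nlinarith only [hN0, hK0]) (by omega)
    rw [ha']
    simp only
    rw [Int.cast_add, mul_pow]
    calc |((∑ w ∈ S1, cc u w j : ℤ) : ℝ) + ((if u = [] then bb j else 0 : ℤ) : ℝ)| ≤
        N * K * C ^ n + N * C ^ n := (abs_add_le _ _).trans (add_le_add h1 h2)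
      _ ≤ ((N : ℝ) * K + N + 1) * C ^ n := by nlinarith only [hCn]
      _ ≤ ((N : ℝ) * K + N + 1) ^ n * C ^ n := mul_le_mul_of_nonneg_right h3 hCn.le
  -- a nonzero coefficient
  have hne : ∃ u ∈ P, ∃ j, a' u j ≠ 0 := by
    obtain ⟨w1, hw1, hwF1, j1, hj1⟩ := ha
    obtain ⟨w, hw, hmax⟩ := Finset.exists_max_image (S1.filter fun w => ∃ j, a w j ≠ 0)
      List.length ⟨w1, Finset.mem_filter.2 ⟨Finset.mem_filter.2 ⟨hw1, hwF1⟩, j1, hj1⟩⟩
    obtain ⟨hwS, j, hj⟩ := Finset.mem_filter.1 hw
    obtain ⟨hwW, hwF⟩ := Finset.mem_filter.1 hwS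
    obtain ⟨hw0, hv, -⟩ := hfin w hwS
    have hl := List.length_pos_iff.2 hw0
    refine ⟨w.dropLast, ?_, j, ?_⟩
    · rw [List.dropLast_eq_take]
      exact htake w hwS _ (by omega)
    · rw [ha']
      simp only
      rw [if_neg hv, add_zero, Finset.sum_eq_single w]
      · rw [hcc]
        simp only
        rw [Finset.sum_eq_single (w.length - 1)]
        · rw [if_pos List.dropLast_eq_take.symm, Nat.sub_self, pow_zero, one_mul]
          exact hj
        · intro i hi hne
          rw [if_neg]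
          intro h
          have h2 := congrArg List.length h
          rw [List.length_take, List.length_dropLast] at h2
          have := Finset.mem_range.1 hi
          omega
        · intro h
          exact absurd (Finset.mem_range.2 (by omega)) h
      · intro w' hw' hne
        rw [hcc]
        simp only
        refine Finset.sum_eq_zero fun i hi => ?_
        split_ifs with h
        · by_cases hz : a w' j = 0
          · rw [hz, mul_zero]
          · exfalso
            have h3 := hmax w' (Finset.mem_filter.2 ⟨hw', j, hz⟩)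
            have h2 := congrArg List.length h
            rw [List.length_take, List.length_dropLast] at h2
            have h4 := Finset.mem_range.1 hi
            have h5 : w'.length = w.length := by omega
            have h6 : i = w'.length - 1 := by omega
            rw [h6, ← List.dropLast_eq_take] at h
            obtain ⟨hw0', -, -⟩ := hfin w' hw'
            apply hne
            have h7 := (hW w' (Finset.mem_filter.1 hw').1).2
            have h8 := (hW w hwW).2
            have h9 := List.dropLast_append_getLast hw0'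
            have h10 := List.dropLast_append_getLast hw0
            rw [h] at h9
            rw [← h9, List.sum_append, List.sum_singleton] at h7
            rw [← h10, List.sum_append, List.sum_singleton] at h8
            rw [← h9, ← h10]
            congr 2
            omega
        · rfl
      · intro h
        exact absurd hwS h
  have h1 := hmain n hn1 P hPc hadj a' hne ha'C
  -- the decomposition
  set f : List ℕ → ℝ := fun w => ∑ j, (β j * a w j) * mz w with hf
  set z : List ℕ → ℝ := fun w => if Fi n K w then mq w.dropLast else dl w with hz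
  have e1 : ∑ w ∈ W, f w = ∑ w ∈ S1, f w + ∑ w ∈ S2, f w :=
    (Finset.sum_filter_add_sum_filter_not W (Fi n K) f).symm
  have e2 : ∑ w ∈ W, ∑ j, (β j * a w j) * z w = ∑ u ∈ P, ∑ j, (β j * a' u j) * mz u := by
    have e3 : ∑ w ∈ W, ∑ j, (β j * a w j) * z w =
        ∑ w ∈ S1, ∑ j, (β j * a w j) * mq w.dropLast + ∑ w ∈ S2, ∑ j, (β j * a w j) * dl w := by
      rw [← Finset.sum_filter_add_sum_filter_not W (Fi n K)]
      congr 1
      · refine Finset.sum_congr rfl fun w hw => ?_
        simp only [hz, (Finset.mem_filter.1 hw).2, if_true]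
      · refine Finset.sum_congr rfl fun w hw => ?_
        simp only [hz, (Finset.mem_filter.1 hw).2, if_false]
    have e4 : ∑ w ∈ S2, ∑ j, (β j * a w j) * dl w = ∑ j, β j * bb j := by
      rw [Finset.sum_comm]
      refine Finset.sum_congr rfl fun j _ => ?_
      rw [hbb]
      simp only
      rw [Int.cast_sum, Finset.mul_sum]
      refine Finset.sum_congr rfl fun w _ => ?_
      unfold dl
      split_ifs <;> push_cast <;> ring
    have e5 : ∀ u, ∑ j, (β j * a' u j) * mz u =
        (∑ j, ∑ w ∈ S1, (β j * cc u w j) * mz u) +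
          (if u = [] then ∑ j, β j * bb j else 0) := by
      intro u
      have e6 : ∀ j, (β j * a' u j) * mz u = (∑ w ∈ S1, (β j * cc u w j) * mz u) +
          (if u = [] then β j * bb j else 0) := by
        intro j
        rw [ha']
        simp only
        rw [Int.cast_add, Int.cast_sum, mul_add, add_mul, Finset.mul_sum, Finset.sum_mul]
        congr 1
        split_ifs with h
        · rw [h, mz, mul_one]
        · rw [Int.cast_zero, mul_zero, zero_mul]
      rw [Finset.sum_congr rfl fun j _ => e6 j, Finset.sum_add_distrib]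
      congr 1
      split_ifs with h
      · rfl
      · exact Finset.sum_const_zero
    rw [e3, e4, Finset.sum_congr rfl fun u _ => e5 u, Finset.sum_add_distrib,
      Finset.sum_ite_eq' P ([] : List ℕ), if_pos (Finset.mem_insert_self _ _)]
    congr 1
    have e7 : ∑ u ∈ P, ∑ j, ∑ w ∈ S1, (β j * cc u w j) * mz u =
        ∑ w ∈ S1, ∑ j, ∑ u ∈ P, (β j * cc u w j) * mz u := by
      rw [Finset.sum_comm]
      rw [Finset.sum_congr rfl fun j _ => Finset.sum_comm]
      rw [Finset.sum_comm]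
    rw [e7]
    refine Finset.sum_congr rfl fun w hw => Finset.sum_congr rfl fun j _ => ?_
    obtain ⟨hwW, hwF⟩ := Finset.mem_filter.1 hw
    obtain ⟨⟨h0, h1', h2⟩, h3⟩ := hW w hwW
    rw [mq_dropLast h0 h1' (fun k hk => hn3.trans (h2 k hk).1), Finset.mul_sum]
    have e8 : ∀ u, (β j * cc u w j) * mz u = ∑ i ∈ Finset.range w.length,
        (if w.take i = u then (β j * a w j) * ((-1 : ℝ) ^ (w.length - 1 - i) * mz u) else 0) := by
      intro u
      rw [hcc]
      simp only
      rw [Int.cast_sum, Finset.mul_sum, Finset.sum_mul]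
      refine Finset.sum_congr rfl fun i _ => ?_
      split_ifs
      · push_cast
        ring
      · rw [Int.cast_zero, mul_zero, zero_mul]
    rw [Finset.sum_congr rfl fun u _ => e8 u, Finset.sum_comm]
    refine Finset.sum_congr rfl fun i hi => ?_
    rw [Finset.sum_ite_eq P (w.take i), if_pos (htake w hw i (Finset.mem_range.1 hi))]
  have e6 : ∑ w ∈ W, f w = ∑ u ∈ P, ∑ j, (β j * a' u j) * mz u +
      ∑ w ∈ W, ∑ j, (β j * a w j) * (mz w - z w) := by
    rw [← e2, ← Finset.sum_add_distrib]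
    refine Finset.sum_congr rfl fun w _ => ?_
    rw [← Finset.sum_add_distrib]
    refine Finset.sum_congr rfl fun j _ => ?_
    ring
  -- the error
  have herr : |∑ w ∈ W, ∑ j, (β j * a w j) * (mz w - z w)| ≤ (B ^ n)⁻¹ / 2 := by
    have h2 : ∀ w ∈ W, |mz w - z w| ≤ E * (K1 : ℝ) ^ 3 * ((K1 : ℝ) ^ n)⁻¹ := by
      intro w hwW
      have hze := ze2_pos
      have hpos : (0 : ℝ) ≤ (K1 : ℝ) ^ 3 * ((K1 : ℝ) ^ n)⁻¹ := by positivity
      obtain ⟨⟨h0, h1', h2⟩, h3⟩ := hW w hwW
      by_cases hF : Fi n K w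
      · simp only [hz, hF, if_true]
        obtain ⟨hw0, hv, ht⟩ := hfin w (Finset.mem_filter.2 ⟨hwW, hF⟩)
        refine (mz_last hn3 hK1 hw0 h1' (fun k hk => (h2 k hk).1) hv ht).trans ?_
        have h9 : 2 * (1 + ze 2) * ((K1 : ℝ) ^ 3 * ((K1 : ℝ) ^ n)⁻¹) ≤
            E * ((K1 : ℝ) ^ 3 * ((K1 : ℝ) ^ n)⁻¹) :=
          mul_le_mul_of_nonneg_right (by rw [hE]; linarith only [hze]) hpos
        rw [← mul_assoc, ← mul_assoc] at h9
        exact h9
      · simp only [hz, hF, if_false]
        refine (mz_inf hn3 hK1 ((hFI w hwW).resolve_left hF) h1'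
          (fun k hk => (h2 k hk).1)).trans ?_
        have h9 : 8 * ze 2 * ((K1 : ℝ) ^ 3 * ((K1 : ℝ) ^ n)⁻¹) ≤
            E * ((K1 : ℝ) ^ 3 * ((K1 : ℝ) ^ n)⁻¹) :=
          mul_le_mul_of_nonneg_right (by rw [hE]; linarith only [hze]) hpos
        rw [← mul_assoc, ← mul_assoc] at h9
        exact h9
    have hE0 : 0 ≤ E := by
      have := ze2_pos
      rw [hE]
      positivity
    have h3 : ∀ w ∈ W, |∑ j, (β j * a w j) * (mz w - z w)| ≤
        b * C ^ n * (E * (K1 : ℝ) ^ 3 * ((K1 : ℝ) ^ n)⁻¹) := by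
      intro w hwW
      refine (Finset.abs_sum_le_sum_abs _ _).trans ?_
      rw [hb, Finset.sum_mul, Finset.sum_mul]
      refine Finset.sum_le_sum fun j _ => ?_
      rw [abs_mul, abs_mul]
      exact mul_le_mul (mul_le_mul_of_nonneg_left (haC w hwW j) (abs_nonneg _)) (h2 w hwW)
        (abs_nonneg _) (by positivity)
    have h5 : |∑ w ∈ W, ∑ j, (β j * a w j) * (mz w - z w)| ≤
        N * (b * C ^ n * (E * (K1 : ℝ) ^ 3 * ((K1 : ℝ) ^ n)⁻¹)) := by
      refine (Finset.abs_sum_le_sum_abs _ _).trans ((Finset.sum_le_sum h3).trans ?_)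
      rw [Finset.sum_const, nsmul_eq_mul]
      have : (W.card : ℝ) ≤ N := by exact_mod_cast hWN
      exact mul_le_mul_of_nonneg_right this (by positivity)
    have h6 := hthr n hn2' K1 rfl
    rw [mul_pow, mul_inv] at h6
    calc _ ≤ N * (b * C ^ n * (E * (K1 : ℝ) ^ 3 * ((K1 : ℝ) ^ n)⁻¹)) := h5
      _ = C ^ n * (N * b * E * ((K1 : ℝ) ^ 3 * ((K1 : ℝ) ^ n)⁻¹)) := by ring
      _ ≤ C ^ n * ((B ^ n)⁻¹ * (C ^ n)⁻¹ / 2) := mul_le_mul_of_nonneg_left h6 hCn.le
      _ = (B ^ n)⁻¹ / 2 := by field_simp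
  have h7 : ((2 * B) ^ n)⁻¹ ≤ (B ^ n)⁻¹ / 2 := by
    rw [mul_pow, mul_inv]
    have h8 : (2 : ℝ) ≤ 2 ^ n := by
      calc (2 : ℝ) = 2 ^ 1 := (pow_one _).symm
        _ ≤ 2 ^ n := pow_le_pow_right₀ one_le_two (by omega)
    have h9 : ((2 : ℝ) ^ n)⁻¹ ≤ 1 / 2 := by
      rw [one_div]
      exact inv_anti₀ two_pos h8
    calc ((2 : ℝ) ^ n)⁻¹ * (B ^ n)⁻¹ ≤ 1 / 2 * (B ^ n)⁻¹ :=
          mul_le_mul_of_nonneg_right h9 (by positivity)
      _ = _ := by ring
  have h10 : |∑ u ∈ P, ∑ j, (β j * a' u j) * mz u| ≤ |∑ w ∈ W, f w| +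
      |∑ w ∈ W, ∑ j, (β j * a w j) * (mz w - z w)| := by
    have h11 : ∑ u ∈ P, ∑ j, (β j * a' u j) * mz u = ∑ w ∈ W, f w -
      ∑ w ∈ W, ∑ j, (β j * a w j) * (mz w - z w) := by
      rw [e6]
      ring
    rw [h11]
    exact abs_sub _ _
  linarith only [h1, h7, h10, herr]

end Pool.Agent.Y777.AM
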