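import Pool.Agent.Y777.AM.E

/-!
# Multiple zeta values with many arguments at least two are very small (helper777)
-/

set_option autoImplicit false

namespace Pool.Agent.Y777.AM

open Filter Topology Pool.Agent.Y760.ZG Pool.Agent.Y777.AL Pool.Agent.TH883.Zg

/-- the number of arguments which are at least two -/
def ht (w : List ℕ) : ℕ := w.countP (fun s => decide (2 ≤ s))

lemma ht_cons_pos {a : ℕ} (ha : 2 ≤ a) (u : List ℕ) : ht (a :: u) = ht u + 1 := by
  unfold ht
  rw [List.countP_cons_of_pos (by simpa using ha)]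

lemma ht_cons_neg {a : ℕ} (ha : ¬ 2 ≤ a) (u : List ℕ) : ht (a :: u) = ht u := by
  unfold ht
  rw [List.countP_cons_of_neg (by simpa using ha)]

lemma pow_step {S f : ℝ} (hS : 0 ≤ S) (hf : 0 ≤ f) (D : ℕ) :
    S ^ (D + 1) + (D + 1) * S ^ D * f ≤ (S + f) ^ (D + 1) := by
  induction D with
  | zero => simp
  | succ D ih =>
    have h1 : 0 ≤ S ^ D := pow_nonneg hS _
    have hD : (0 : ℝ) ≤ D := Nat.cast_nonneg _
    have h2 : (S + f) * (S ^ (D + 1) + (D + 1) * S ^ D * f) ≤ (S + f) * (S + f) ^ (D + 1) :=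
      mul_le_mul_of_nonneg_left ih (by positivity)
    have h3 : (S + f) * (S + f) ^ (D + 1) = (S + f) ^ (D + 1 + 1) := by rw [pow_succ _ (D + 1)]; ring
    have h4 : (S + f) * (S ^ (D + 1) + (D + 1) * S ^ D * f) =
        S ^ (D + 1 + 1) + ((D + 1 : ℕ) + 1) * S ^ (D + 1) * f + (D + 1) * S ^ D * f ^ 2 := by
      push_cast
      ring
    have h5 : 0 ≤ (D + 1) * S ^ D * f ^ 2 := by positivity
    linarith only [h2, h3, h4, h5]

/-- partial sums -/
noncomputable def Sf (f : ℕ → ℝ) (m : ℕ) : ℝ := ∑ j ∈ Finset.Ico 1 m, f j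

lemma Sf_nonneg {f : ℕ → ℝ} (hf : ∀ j, 0 ≤ f j) (m : ℕ) : 0 ≤ Sf f m :=
  Finset.sum_nonneg fun j _ => hf j

lemma Sf_pow {f : ℕ → ℝ} (hf : ∀ j, 0 ≤ f j) (D : ℕ) (m : ℕ) (hm : 1 ≤ m) :
    ∑ j ∈ Finset.Ico 1 m, Sf f j ^ D * f j ≤ Sf f m ^ (D + 1) / (D + 1) := by
  induction m, hm using Nat.le_induction with
  | base => simp [Sf]
  | succ m hm ih =>
    rw [Finset.sum_Ico_succ_top hm]
    have h1 : Sf f (m + 1) = Sf f m + f m := by
      unfold Sf
      rw [Finset.sum_Ico_succ_top hm]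
    have h2 := pow_step (Sf_nonneg hf m) (hf m) D
    rw [h1]
    have hD : (0 : ℝ) < (D : ℝ) + 1 := by positivity
    rw [le_div_iff₀ hD] at ih ⊢
    calc _ = (∑ j ∈ Finset.Ico 1 m, Sf f j ^ D * f j) * (D + 1) + (D + 1) * Sf f m ^ D * f m := by
          ring
      _ ≤ Sf f m ^ (D + 1) + (D + 1) * Sf f m ^ D * f m := by linarith only [ih]
      _ ≤ _ := h2

lemma sqrt_sum (m : ℕ) : ∑ j ∈ Finset.Ico 1 (m + 1), 1 / Real.sqrt j ≤ 2 * Real.sqrt m := by
  induction m with
  | zero => simp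
  | succ m ih =>
    rw [Finset.sum_Ico_succ_top (by omega)]
    have hm : (0 : ℝ) ≤ m := Nat.cast_nonneg _
    set x : ℝ := Real.sqrt m with hx
    set y : ℝ := Real.sqrt ((m + 1 : ℕ) : ℝ) with hy
    have hx0 : 0 ≤ x := Real.sqrt_nonneg _
    have hy0 : 0 < y := Real.sqrt_pos.2 (by positivity)
    have hx2 : x ^ 2 = m := Real.sq_sqrt hm
    have hy2 : y ^ 2 = m + 1 := by
      rw [hy, Real.sq_sqrt (by positivity)]
      push_cast
      ring
    have h1 : 1 / y ≤ 2 * y - 2 * x := by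
      rw [div_le_iff₀ hy0]
      nlinarith only [hx2, hy2, sq_nonneg (y - x)]
    linarith only [ih, h1]

/-- the inverse squares -/
noncomputable def f2 (j : ℕ) : ℝ := 1 / (j : ℝ) ^ 2

lemma f2_nonneg (j : ℕ) : 0 ≤ f2 j := by
  unfold f2
  positivity

lemma hr_ht (l : List ℕ) (hl : ∀ m ∈ l, 1 ≤ m) : ∀ m : ℕ, 1 ≤ m →
    hr l m ≤ 2 ^ l.length * Real.sqrt m * (Sf f2 m ^ ht l / (ht l).factorial) := by
  induction l with
  | nil =>
    intro m hm
    rw [hr_nil, List.length_nil, pow_zero, one_mul]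
    have h0 : ht [] = 0 := rfl
    rw [h0, pow_zero, Nat.factorial_zero, Nat.cast_one, div_one, mul_one]
    have h1 : (1 : ℝ) ≤ m := by exact_mod_cast hm
    rw [← Real.sqrt_one]
    exact Real.sqrt_le_sqrt h1
  | cons a u ih =>
    intro m hm
    have ih' := ih fun x hx => hl x (List.mem_cons_of_mem _ hx)
    have ha := hl a List.mem_cons_self
    rw [hr_cons]
    have hmono : ∀ j ∈ Finset.Ico 1 m, Sf f2 j ≤ Sf f2 m := fun j hj =>
      Finset.sum_le_sum_of_subset_of_nonneg (Finset.Ico_subset_Ico_right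
        (Finset.mem_Ico.1 hj).2.le) fun i _ _ => f2_nonneg i
    by_cases ha2 : 2 ≤ a
    · rw [ht_cons_pos ha2, List.length_cons]
      set D := ht u with hD
      calc ∑ j ∈ Finset.Ico 1 m, hr u j / (j : ℝ) ^ a ≤
          ∑ j ∈ Finset.Ico 1 m, 2 ^ u.length * Real.sqrt m / D.factorial *
            (Sf f2 j ^ D * f2 j) := by
            refine Finset.sum_le_sum fun j hj => ?_
            obtain ⟨hj1, hj2⟩ := Finset.mem_Ico.1 hj
            have h1 : (1 : ℝ) ≤ j := by exact_mod_cast hj1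
            have h2 : hr u j / (j : ℝ) ^ a ≤ hr u j * f2 j := by
              rw [f2, mul_one_div]
              refine div_le_div_of_nonneg_left (hr_nonneg _ _) (by positivity) ?_
              exact pow_le_pow_right₀ h1 ha2
            have h3 : Real.sqrt j ≤ Real.sqrt m :=
              Real.sqrt_le_sqrt (by exact_mod_cast hj2.le)
            have h4 : 0 ≤ Sf f2 j ^ D / (D.factorial : ℝ) :=
              div_nonneg (pow_nonneg (Sf_nonneg f2_nonneg _) _) (Nat.cast_nonneg _)
            calc hr u j / (j : ℝ) ^ a ≤ hr u j * f2 j := h2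
              _ ≤ (2 ^ u.length * Real.sqrt j * (Sf f2 j ^ D / D.factorial)) * f2 j :=
                  mul_le_mul_of_nonneg_right (ih' j hj1) (f2_nonneg j)
              _ ≤ (2 ^ u.length * Real.sqrt m * (Sf f2 j ^ D / D.factorial)) * f2 j := by
                  gcongr
                  exact f2_nonneg j
              _ = _ := by ring
        _ = 2 ^ u.length * Real.sqrt m / D.factorial * ∑ j ∈ Finset.Ico 1 m,
            (Sf f2 j ^ D * f2 j) := by rw [Finset.mul_sum]
        _ ≤ 2 ^ u.length * Real.sqrt m / D.factorial * (Sf f2 m ^ (D + 1) / (D + 1)) := by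
            refine mul_le_mul_of_nonneg_left (Sf_pow f2_nonneg D m hm) ?_
            positivity
        _ ≤ 2 ^ (u.length + 1) * Real.sqrt m * (Sf f2 m ^ (D + 1) / ((D + 1).factorial : ℝ)) := by
            have h5 : ((D + 1).factorial : ℝ) = (D + 1) * D.factorial := by
              rw [Nat.factorial_succ]
              push_cast
              ring
            have h6 : 0 ≤ 2 ^ u.length * Real.sqrt m * (Sf f2 m ^ (D + 1) /
                ((D + 1) * D.factorial)) := by
              have := pow_nonneg (Sf_nonneg f2_nonneg m) (D + 1)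
              positivity
            rw [h5, pow_succ (2 : ℝ)]
            calc 2 ^ u.length * Real.sqrt m / D.factorial * (Sf f2 m ^ (D + 1) / (D + 1)) =
                2 ^ u.length * Real.sqrt m * (Sf f2 m ^ (D + 1) / ((D + 1) * D.factorial)) := by
                  field_simp
              _ ≤ 2 * (2 ^ u.length * Real.sqrt m * (Sf f2 m ^ (D + 1) /
                ((D + 1) * D.factorial))) := by linarith only [h6]
              _ = _ := by ring
    · have ha1 : a = 1 := by omega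
      rw [ht_cons_neg ha2, List.length_cons, ha1]
      set D := ht u with hD
      have h4 : 0 ≤ Sf f2 m ^ D / (D.factorial : ℝ) :=
        div_nonneg (pow_nonneg (Sf_nonneg f2_nonneg _) _) (Nat.cast_nonneg _)
      calc ∑ j ∈ Finset.Ico 1 m, hr u j / (j : ℝ) ^ 1 ≤
          ∑ j ∈ Finset.Ico 1 m, 2 ^ u.length * (Sf f2 m ^ D / D.factorial) *
            (1 / Real.sqrt j) := by
            refine Finset.sum_le_sum fun j hj => ?_
            obtain ⟨hj1, hj2⟩ := Finset.mem_Ico.1 hj
            have h1 : (0 : ℝ) < j := by exact_mod_cast hj1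
            have h5 : 0 < Real.sqrt j := Real.sqrt_pos.2 h1
            have h6 : Real.sqrt j / (j : ℝ) = 1 / Real.sqrt j := by
              rw [div_eq_div_iff h1.ne' h5.ne', one_mul, Real.mul_self_sqrt h1.le]
            have h7 : Sf f2 j ^ D ≤ Sf f2 m ^ D :=
              pow_le_pow_left₀ (Sf_nonneg f2_nonneg _) (hmono j hj) _
            rw [pow_one]
            calc hr u j / (j : ℝ) ≤ (2 ^ u.length * Real.sqrt j * (Sf f2 j ^ D / D.factorial)) /
                  (j : ℝ) := div_le_div_of_nonneg_right (ih' j hj1) h1.le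
              _ = (2 ^ u.length * (Sf f2 j ^ D / D.factorial)) * (Real.sqrt j / (j : ℝ)) := by
                  ring
              _ ≤ (2 ^ u.length * (Sf f2 m ^ D / D.factorial)) * (Real.sqrt j / (j : ℝ)) := by
                  gcongr
              _ = _ := by rw [h6]
        _ = 2 ^ u.length * (Sf f2 m ^ D / D.factorial) * ∑ j ∈ Finset.Ico 1 m,
            (1 / Real.sqrt j) := by rw [Finset.mul_sum]
        _ ≤ 2 ^ u.length * (Sf f2 m ^ D / D.factorial) * (2 * Real.sqrt m) := by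
            refine mul_le_mul_of_nonneg_left ?_ (mul_nonneg (by positivity) h4)
            obtain ⟨m', rfl⟩ : ∃ m', m = m' + 1 := ⟨m - 1, by omega⟩
            refine (sqrt_sum m').trans ?_
            have : Real.sqrt m' ≤ Real.sqrt ((m' + 1 : ℕ) : ℝ) :=
              Real.sqrt_le_sqrt (by push_cast; linarith)
            linarith only [this]
        _ = _ := by ring

/-- a constant -/
noncomputable def Z32 : ℝ := ∑' k : ℕ, Real.sqrt ((k + 1 : ℕ) : ℝ) / ((k + 1 : ℕ) : ℝ) ^ 2

lemma summ32 : Summable fun k : ℕ => Real.sqrt ((k + 1 : ℕ) : ℝ) / ((k + 1 : ℕ) : ℝ) ^ 2 := by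
  have h1 : Summable fun k : ℕ => 1 / ((k : ℝ)) ^ (3 / 2 : ℝ) :=
    Real.summable_one_div_nat_rpow.2 (by norm_num)
  have h2 := (summable_nat_add_iff 1).2 h1
  refine h2.congr fun k => ?_
  have h3 : (0 : ℝ) < ((k + 1 : ℕ) : ℝ) := by positivity
  rw [Real.sqrt_eq_rpow, ← Real.rpow_natCast (((k + 1 : ℕ) : ℝ)) 2, ← Real.rpow_sub h3, one_div,
    ← Real.rpow_neg h3.le]
  norm_num

lemma Sf2_le (m : ℕ) : Sf f2 m ≤ 2 := by
  cases m with
  | zero => simp [Sf]
  | succ m =>
    cases m with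
    | zero => simp [Sf]
    | succ m =>
      have h : ∀ m : ℕ, Sf f2 (m + 2) ≤ 2 - 1 / ((m : ℝ) + 1) := by
        intro m
        induction m with
        | zero =>
          unfold Sf
          rw [show Finset.Ico 1 (0 + 2) = {1} from rfl, Finset.sum_singleton, f2]
          norm_num
        | succ m ih =>
          have h1 : Sf f2 (m + 1 + 2) = Sf f2 (m + 2) + f2 (m + 2) := by
            unfold Sf
            rw [show m + 1 + 2 = m + 2 + 1 by ring, Finset.sum_Ico_succ_top (by omega)]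
          rw [h1, f2]
          have hm : (0 : ℝ) ≤ m := Nat.cast_nonneg _
          have h2 : 1 / ((m + 2 : ℕ) : ℝ) ^ 2 ≤ 1 / ((m : ℝ) + 1) - 1 / ((m + 1 : ℕ) + 1 : ℝ) := by
            push_cast
            rw [div_sub_div _ _ (by positivity) (by positivity), div_le_div_iff₀ (by positivity)
              (by positivity)]
            nlinarith only [hm]
          linarith only [ih, h2]
      refine (h m).trans ?_
      have : 0 ≤ 1 / ((m : ℝ) + 1) := by positivity
      linarith only [this]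

/-- **many arguments at least two** -/
lemma mz_ht {w : List ℕ} (hw : ∀ m ∈ w, 1 ≤ m) (hw0 : w ≠ []) (hw2 : ∀ k ∈ w.head?, 2 ≤ k) :
    mz w ≤ 2 ^ w.length * Z32 * (2 ^ (ht w - 1) / (ht w - 1).factorial) := by
  cases w with
  | nil => exact absurd rfl hw0
  | cons a u =>
    have ha : 2 ≤ a := hw2 a (by simp)
    rw [ht_cons_pos ha, Nat.add_sub_cancel, mz, List.length_cons]
    set D := ht u with hD
    have hu : ∀ m ∈ u, 1 ≤ m := fun m hm => hw m (List.mem_cons_of_mem _ hm)
    have h1 : ∀ k : ℕ, hr u (k + 1) / ((k + 1 : ℕ) : ℝ) ^ a ≤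
        (2 ^ u.length * (2 ^ D / D.factorial)) *
          (Real.sqrt ((k + 1 : ℕ) : ℝ) / ((k + 1 : ℕ) : ℝ) ^ 2) := by
      intro k
      have h2 : (1 : ℝ) ≤ ((k + 1 : ℕ) : ℝ) := by exact_mod_cast Nat.le_add_left 1 k
      have h3 := hr_ht u hu (k + 1) (by omega)
      have h4 : hr u (k + 1) / ((k + 1 : ℕ) : ℝ) ^ a ≤ hr u (k + 1) / ((k + 1 : ℕ) : ℝ) ^ 2 :=
        div_le_div_of_nonneg_left (hr_nonneg _ _) (by positivity) (pow_le_pow_right₀ h2 ha)
      have h5 : Sf f2 (k + 1) ^ D ≤ 2 ^ D :=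
        pow_le_pow_left₀ (Sf_nonneg f2_nonneg _) (Sf2_le _) _
      calc hr u (k + 1) / ((k + 1 : ℕ) : ℝ) ^ a ≤ hr u (k + 1) / ((k + 1 : ℕ) : ℝ) ^ 2 := h4
        _ ≤ (2 ^ u.length * Real.sqrt ((k + 1 : ℕ) : ℝ) * (Sf f2 (k + 1) ^ D / D.factorial)) /
            ((k + 1 : ℕ) : ℝ) ^ 2 := div_le_div_of_nonneg_right h3 (by positivity)
        _ ≤ (2 ^ u.length * Real.sqrt ((k + 1 : ℕ) : ℝ) * (2 ^ D / D.factorial)) /
            ((k + 1 : ℕ) : ℝ) ^ 2 := by gcongr
        _ = _ := by ring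
    have hs := summ32.mul_left (2 ^ u.length * (2 ^ D / (D.factorial : ℝ)))
    have h6 : Summable fun k : ℕ => hr u (k + 1) / ((k + 1 : ℕ) : ℝ) ^ a :=
      Summable.of_nonneg_of_le (fun k => div_nonneg (hr_nonneg _ _) (by positivity)) h1 hs
    have h7 := h6.tsum_le_tsum h1 hs
    rw [tsum_mul_left] at h7
    refine h7.trans ?_
    rw [← Z32]
    have hZ : 0 ≤ Z32 := tsum_nonneg fun k => by positivity
    have h8 : 0 ≤ 2 ^ u.length * (2 ^ D / (D.factorial : ℝ)) * Z32 := by positivity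
    calc _ ≤ 2 * (2 ^ u.length * (2 ^ D / (D.factorial : ℝ)) * Z32) := by linarith only [h8]
      _ = _ := by rw [pow_succ]; ring

end Pool.Agent.Y777.AM
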